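import Pool.Agent.Lib.MP_68fe73_pr.Forward

/-!
The a priori bound for the finite processes.
-/

namespace Pool.Agent.Lib.MP_68fe73_pr

open MeasureTheory ProbabilityTheory Filter Topology

/-- Gronwall with a dissipation term. -/
lemma gronwall_dissipation {φ ψ w : ℝ → ℝ} {κ ε φ₀ : ℝ} (hκ : 0 ≤ κ) (hε : 0 ≤ ε)
    (hψ : ContinuousOn ψ (Set.Ici 0)) (hφ : ContinuousOn φ (Set.Ici 0))
    (hw : ContinuousOn w (Set.Ici 0)) (hw0 : ∀ u, 0 ≤ u → 0 ≤ w u)
    (hφ0 : ∀ u, 0 ≤ u → 0 ≤ φ u) (hφ₀ : 0 ≤ φ₀)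
    (hint : ∀ t, 0 ≤ t → φ t = φ₀ + ∫ u in (0 : ℝ)..t, ψ u)
    (h : ∀ u, 0 ≤ u → ψ u + w u ≤ κ * φ u + ε) {t : ℝ} (ht : 0 ≤ t) :
    ∫ u in (0 : ℝ)..t, w u ≤ φ₀ + t * (κ * gronwallBound φ₀ κ ε t + ε) := by
  set ψ' : ℝ → ℝ := fun u => ψ (max u 0) with hψ'
  have hc : Continuous ψ' :=
    hψ.comp_continuous (continuous_id.max continuous_const) fun u => Set.mem_Ici.mpr (le_max_right u 0)
  have h1 : ∀ s, 0 ≤ s → φ s = φ₀ + ∫ u in (0 : ℝ)..s, ψ' u := by
    intro s hs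
    rw [hint s hs]
    congr 1
    refine intervalIntegral.integral_congr fun u hu => ?_
    rw [Set.uIcc_of_le hs] at hu
    simp only [hψ', max_eq_left hu.1]
  have h2 : ∀ x, 0 ≤ x → HasDerivWithinAt φ (ψ x) (Set.Ici x) x := by
    intro x hx
    have h3 : HasDerivAt (fun s => φ₀ + ∫ u in (0 : ℝ)..s, ψ' u) (ψ' x) x :=
      (hc.integral_hasStrictDerivAt 0 x).hasDerivAt.const_add φ₀
    have h4 : ψ' x = ψ x := by simp only [hψ', max_eq_left hx]
    rw [h4] at h3
    exact h3.hasDerivWithinAt.congr (fun y hy => h1 y (hx.trans hy)) (h1 x hx)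
  have h5 : ∀ x ∈ Set.Icc 0 t, φ x ≤ gronwallBound φ₀ κ ε (x - 0) := by
    refine le_gronwallBound_of_liminf_deriv_right_le (f' := ψ)
      (hφ.mono Set.Icc_subset_Ici_self) ?_ ?_ ?_
    · intro x hx r hr
      refine ((h2 x hx.1).liminf_right_slope_le hr).mono fun z hz => ?_
      rwa [slope_def_field, div_eq_inv_mul] at hz
    · rw [hint 0 le_rfl, intervalIntegral.integral_same, add_zero]
    · intro x hx
      have := h x hx.1
      have := hw0 x hx.1
      linarith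
  have h6 : ∀ x ∈ Set.Icc 0 t, w x ≤ (κ * gronwallBound φ₀ κ ε t + ε) - ψ x := by
    intro x hx
    have h7 := h5 x hx
    rw [sub_zero] at h7
    have h8 := gronwallBound_mono hφ₀ hε hκ hx.2
    have h9 : κ * φ x ≤ κ * gronwallBound φ₀ κ ε t :=
      mul_le_mul_of_nonneg_left (h7.trans h8) hκ
    have := h x hx.1
    linarith
  have iψ : IntervalIntegrable ψ volume 0 t := (hψ.mono (by
      rw [Set.uIcc_of_le ht]
      exact Set.Icc_subset_Ici_self)).intervalIntegrable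
  have iw : IntervalIntegrable w volume 0 t := (hw.mono (by
      rw [Set.uIcc_of_le ht]
      exact Set.Icc_subset_Ici_self)).intervalIntegrable
  have h10 : ∫ u in (0 : ℝ)..t, w u ≤
      ∫ u in (0 : ℝ)..t, ((κ * gronwallBound φ₀ κ ε t + ε) - ψ u) :=
    intervalIntegral.integral_mono_on ht iw (intervalIntegrable_const.sub iψ) h6
  rw [intervalIntegral.integral_sub intervalIntegrable_const iψ,
    intervalIntegral.integral_const, sub_zero, smul_eq_mul] at h10
  have h11 := hint t ht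
  have h12 := hφ0 t ht
  linarith

variable {Ω : Type*} [mΩ : MeasurableSpace Ω] {P : Measure Ω} [IsProbabilityMeasure P]
  {F : ℝ → MeasurableSpace Ω} {Γ : Ω → Set Atom} {g : ℕ → ℝ} {ζ₀ : ℤ →₀ ℕ}
  {η : ℝ → Ω → ℤ →₀ ℕ}

lemma tendsto_linear_div_two_pow (A : ℝ) :
    Tendsto (fun m : ℕ => ((m : ℝ) + 1 + 1) * (A / 2 ^ (m + 1))) atTop (𝓝 0) := by
  have h1 : Tendsto (fun m : ℕ => (m : ℝ) ^ 1 * (1 / 2 : ℝ) ^ m) atTop (𝓝 0) :=
    tendsto_pow_const_mul_const_pow_of_abs_lt_one 1 (by rw [abs_of_pos] <;> norm_num)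
  have h2 : Tendsto (fun m : ℕ => (1 / 2 : ℝ) ^ m) atTop (𝓝 0) :=
    tendsto_pow_atTop_nhds_zero_of_lt_one (by norm_num) (by norm_num)
  have h3 := (h1.const_mul (A / 2)).add (h2.const_mul A)
  rw [mul_zero, mul_zero, add_zero] at h3
  refine h3.congr fun m => ?_
  rw [one_div, inv_pow, pow_succ]
  field_simp
  ring

/-- The weight `g (k) * 2 ^ k`. -/
noncomputable def wt (g : ℕ → ℝ) (k : ℕ) : ℝ := g k * 2 ^ k

/-- The a priori bound. -/
theorem IsFiniteProcess.bound (hg : g 0 = 0) (hm : Monotone g) (hΓ : IsMarkedPoisson P F Γ)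
    (hη : IsFiniteProcess g P F Γ ζ₀ η) {z : ℤ} {c : ℕ} (hc : 1 ≤ c) {V₀ : ℝ}
    (hV : ∀ m, V z c m ζ₀ ≤ V₀) {t : ℝ} (ht : 0 ≤ t) :
    ContinuousOn (fun u => ∫ ω, wt g (η u ω (z + 1)) ∂P) (Set.Ici 0) ∧
    ∫ u in (0 : ℝ)..t, ∫ ω, wt g (η u ω (z + 1)) ∂P ≤
      2 ^ (2 * c + 3) * (V₀ + t * (2 * g (c + 1) * (V₀ * Real.exp (2 * g (c + 1) * t)))) := by
  have h0 : ∀ j, 0 ≤ g j := fun j => hg ▸ hm (Nat.zero_le j)
  set N := ζ₀.degree with hN
  set κ := 2 * g (c + 1) with hκ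
  have hκ0 : 0 ≤ κ := mul_nonneg (by norm_num) (h0 _)
  have hwt : ∀ k, 0 ≤ wt g k := fun k => mul_nonneg (h0 k) (by positivity)
  have hwC : ∀ ζ : ℤ →₀ ℕ, ζ.degree = ζ₀.degree → |wt g (ζ (z + 1))| ≤ g N * 2 ^ N := by
    intro ζ hζ
    rw [abs_of_nonneg (hwt _)]
    have h1 : ζ (z + 1) ≤ N := (le_degree ζ _).trans hζ.le
    exact mul_le_mul (hm h1) (pow_le_pow_right₀ (by norm_num) h1) (by positivity) (h0 _)
  have hwcont := (hη.forward hg hm hΓ hwC).2.1
  refine ⟨hwcont, ?_⟩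
  have hbound : ∀ m : ℕ, 1 / 2 ^ (2 * c + 3) * ∫ u in (0 : ℝ)..t, ∫ ω, wt g (η u ω (z + 1)) ∂P ≤
      V₀ + t * (κ * gronwallBound V₀ κ (((m : ℝ) + 1 + 1) * (g N * 2 ^ N / 2 ^ (m + 1))) t +
        ((m : ℝ) + 1 + 1) * (g N * 2 ^ N / 2 ^ (m + 1))) := by
    intro m
    set ε := ((m : ℝ) + 1 + 1) * (g N * 2 ^ N / 2 ^ (m + 1)) with hε
    have hε0 : 0 ≤ ε := by
      have := h0 N
      positivity
    have hVC : ∀ ζ : ℤ →₀ ℕ, ζ.degree = ζ₀.degree →
        |V z c (m + 1) ζ| ≤ ((m + 1 : ℕ) + 1 : ℝ) * (((m + 1 : ℕ) + 1 : ℝ) * 2 ^ N) := by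
      intro ζ hζ
      rw [abs_of_nonneg (V_nonneg _ _ _ _)]
      exact V_le hc hζ.le
    obtain ⟨f1, f2, f3⟩ := hη.forward hg hm hΓ hVC
    have hVint : ∀ u, 0 ≤ u → Integrable (fun ω => V z c (m + 1) (η u ω)) P := by
      intro u hu
      refine Integrable.of_bound (hη.measurable_comp hΓ hu _).aestronglyMeasurable
        (((m + 1 : ℕ) + 1 : ℝ) * (((m + 1 : ℕ) + 1 : ℝ) * 2 ^ N)) ?_
      filter_upwards [hη.degree_eq hg hm hΓ hu] with ω hω
      exact hVC _ hω
    have hwint : ∀ u, 0 ≤ u → Integrable (fun ω => wt g (η u ω (z + 1))) P := by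
      intro u hu
      refine Integrable.of_bound
        (hη.measurable_comp hΓ hu (fun ζ => wt g (ζ (z + 1)))).aestronglyMeasurable
        (g N * 2 ^ N) ?_
      filter_upwards [hη.degree_eq hg hm hΓ hu] with ω hω
      exact hwC _ hω
    have hgint : ∀ u, 0 ≤ u → Integrable (fun ω => genF g (V z c (m + 1)) (η u ω)) P := by
      intro u hu
      refine Integrable.of_bound
        (hη.measurable_comp hΓ hu (genF g (V z c (m + 1)))).aestronglyMeasurable
        (2 * N * g N * (((m + 1 : ℕ) + 1 : ℝ) * (((m + 1 : ℕ) + 1 : ℝ) * 2 ^ N))) ?_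
      filter_upwards [hη.degree_eq hg hm hΓ hu] with ω hω
      classical
      have e1 : genF g (V z c (m + 1)) (η u ω) =
          genF g (fun ζ => if ζ.degree = N then V z c (m + 1) ζ else 0) (η u ω) :=
        genF_congr fun ξ hξ => (if_pos (hξ.trans hω)).symm
      rw [e1]
      refine abs_genF_le hg hm (fun ζ => ?_) hω.le
      split_ifs with h
      · exact hVC ζ h
      · rw [abs_zero]
        positivity
    have key := gronwall_dissipation (φ := fun u => ∫ ω, V z c (m + 1) (η u ω) ∂P)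
      (ψ := fun u => ∫ ω, genF g (V z c (m + 1)) (η u ω) ∂P)
      (w := fun u => 1 / 2 ^ (2 * c + 3) * ∫ ω, wt g (η u ω (z + 1)) ∂P)
      (φ₀ := V z c (m + 1) ζ₀) hκ0 hε0 f1 f2 (hwcont.const_mul _) ?_ ?_ (V_nonneg _ _ _ _)
      f3 ?_ ht
    · rw [intervalIntegral.integral_const_mul] at key
      refine key.trans ?_
      have e2 : gronwallBound (V z c (m + 1) ζ₀) κ ε t ≤ gronwallBound V₀ κ ε t := by
        have h3 := hV (m + 1)
        unfold gronwallBound
        split_ifs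
        · linarith
        · gcongr
      have h3 := hV (m + 1)
      gcongr
    · intro u hu
      have : 0 ≤ ∫ ω, wt g (η u ω (z + 1)) ∂P := integral_nonneg fun ω => hwt _
      positivity
    · intro u hu
      exact integral_nonneg fun ω => V_nonneg _ _ _ _
    · intro u hu
      have h4 : ∫ ω, (genF g (V z c (m + 1)) (η u ω) +
          1 / 2 ^ (2 * c + 3) * wt g (η u ω (z + 1))) ∂P ≤
          ∫ ω, (κ * V z c (m + 1) (η u ω) + ε) ∂P := by
        refine integral_mono_ae ((hgint u hu).add ((hwint u hu).const_mul _))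
          (((hVint u hu).const_mul κ).add (integrable_const ε)) ?_
        filter_upwards [hη.degree_eq hg hm hΓ hu] with ω hω
        have h5 := genF_V_le hg hm z (m := m + 1) hc (by omega) hω.le
        have h6 : 1 / 2 ^ (2 * c + 3) * wt g (η u ω (z + 1)) =
            1 / 2 ^ c * (g (η u ω (z + 1)) * 2 ^ (η u ω) (z + 1) / 2 ^ (c + 3)) := by
          unfold wt
          have : (2 : ℝ) ^ (2 * c + 3) = 2 ^ c * 2 ^ (c + 3) := by ring
          rw [this]
          field_simp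
        rw [h6]
        refine h5.trans (le_of_eq ?_)
        rw [hε]
        push_cast
        ring
      rw [integral_add (hgint u hu) ((hwint u hu).const_mul _), integral_const_mul,
        integral_add ((hVint u hu).const_mul κ) (integrable_const ε), integral_const_mul,
        integral_const, probReal_univ, one_smul] at h4
      exact h4
  have hlim : Tendsto (fun m : ℕ => V₀ + t *
      (κ * gronwallBound V₀ κ (((m : ℝ) + 1 + 1) * (g N * 2 ^ N / 2 ^ (m + 1))) t +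
        ((m : ℝ) + 1 + 1) * (g N * 2 ^ N / 2 ^ (m + 1)))) atTop
      (𝓝 (V₀ + t * (κ * gronwallBound V₀ κ 0 t + 0))) := by
    have h1 := tendsto_linear_div_two_pow (g N * 2 ^ N)
    have h2 := ((gronwallBound_continuous_ε V₀ κ t).tendsto 0).comp h1
    exact (((h2.const_mul κ).add h1).const_mul t).const_add V₀
  have h7 := ge_of_tendsto' hlim hbound
  rw [gronwallBound_ε0, add_zero] at h7
  rw [one_div, inv_mul_le_iff₀ (by positivity)] at h7
  exact h7

end Pool.Agent.Lib.MP_68fe73_pr
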