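import Mathlib

/-!
Definitions for the statement of problem MP_68fe73_pr: the graphical construction of the symmetric
nearest neighbour zero-range process on the integers and the integrated forward equation.
-/

namespace Pool.Agent.Lib.MP_68fe73_pr

open MeasureTheory ProbabilityTheory Filter Topology

/-- An atom with mark: `(x, m, y, t)` stands for an atom `(y, t)` of the Poisson process of the
site `x`, with mark `+1` if `m = true` and mark `-1` if `m = false`. -/
abbrev Atom : Type := ℤ × Bool × ℝ × ℝ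

/-- The value of a mark. -/
def markVal : Bool → ℤ
  | true => 1
  | false => -1

/-- The intensity measure of the marked Poisson processes: counting measure on the sites, mass
`1 / 2` for each mark, Lebesgue measure on `[0, ∞) ^ 2`. -/
noncomputable def intensity : Measure Atom :=
  (Measure.count : Measure ℤ).prod (((1 / 2 : ENNReal) • (Measure.count : Measure Bool)).prod
    ((volume.restrict (Set.Ici (0 : ℝ))).prod (volume.restrict (Set.Ici (0 : ℝ)))))

/-- The number of atoms in `B`. -/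
noncomputable def cnt {Ω : Type*} (Γ : Ω → Set Atom) (B : Set Atom) (ω : Ω) : ℕ∞ :=
  (Γ ω ∩ B).encard

/-- The events which depend on the atoms after time `t`. -/
@[instance_reducible] def future {Ω : Type*} (Γ : Ω → Set Atom) (t : ℝ) : MeasurableSpace Ω :=
  MeasurableSpace.generateFrom {S | ∃ (B : Set Atom) (k : ℕ∞), MeasurableSet B ∧
    (∀ p ∈ B, t < p.2.2.2) ∧ S = {ω | cnt Γ B ω = k}}

/-- `Γ` consists of independent Poisson processes of intensity `1` on `[0, ∞) ^ 2`, one for each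
site, with independent uniformly distributed marks, relative to the filtration `F`. -/
structure IsMarkedPoisson {Ω : Type*} [MeasurableSpace Ω] (P : Measure Ω)
    (F : ℝ → MeasurableSpace Ω) (Γ : Ω → Set Atom) : Prop where
  nonneg : ∀ ω, ∀ p ∈ Γ ω, 0 ≤ p.2.2.1 ∧ 0 ≤ p.2.2.2
  measurable : ∀ B, MeasurableSet B → Measurable (cnt Γ B)
  law : ∀ B, MeasurableSet B → intensity B ≠ ⊤ → ∀ k : ℕ,
    P.real {ω | cnt Γ B ω = k} =
      Real.exp (-(intensity B).toReal) * (intensity B).toReal ^ k / k.factorial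
  indep : ∀ B : ℕ → Set Atom, (∀ i, MeasurableSet (B i)) → Pairwise (Function.onFun Disjoint B) →
    iIndepFun (fun i => cnt Γ (B i)) P
  filtration_le : ∀ t, F t ≤ (inferInstance : MeasurableSpace Ω)
  filtration_mono : Monotone F
  adapted : ∀ B t, MeasurableSet B → (∀ p ∈ B, p.2.2.2 ≤ t) → Measurable[F t] (cnt Γ B)
  indep_future : ∀ t, 0 ≤ t → Indep (F t) (future Γ t) P

/-- A particle of the finite configuration `ζ` is moved from `x` to `y`. -/
noncomputable def move (ζ : ℤ →₀ ℕ) (x y : ℤ) : ℤ →₀ ℕ :=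
  ζ - Finsupp.single x 1 + Finsupp.single y 1

/-- At time `t` the atom `(y, t)` of the process of the site `x`, with mark `m`, is used by a
process whose configuration just before time `t` is `ζ`. -/
def Used {Ω : Type*} (g : ℕ → ℝ) (Γ : Ω → Set Atom) (ω : Ω) (ζ : ℤ →₀ ℕ) (t : ℝ)
    (x : ℤ) (m : Bool) (y : ℝ) : Prop :=
  (x, m, y, t) ∈ Γ ω ∧ 1 ≤ ζ x ∧ y ≤ g (ζ x)

/-- `η` is the zero-range process with finitely many particles which starts from `ζ₀` and is
driven by `Γ`: it is piecewise constant and right-continuous, and it changes exactly at the times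
of the used atoms, when a particle is moved from the site of the atom in the direction of
its mark. (Nothing is required when two used atoms have the same time.) -/
structure IsFiniteProcess {Ω : Type*} [MeasurableSpace Ω] (g : ℕ → ℝ) (P : Measure Ω)
    (F : ℝ → MeasurableSpace Ω) (Γ : Ω → Set Atom) (ζ₀ : ℤ →₀ ℕ) (η : ℝ → Ω → ℤ →₀ ℕ) :
    Prop where
  init : ∀ᵐ ω ∂P, η 0 ω = ζ₀
  adapted : ∀ t, 0 ≤ t → ∀ ζ, MeasurableSet[F t] {ω | η t ω = ζ}
  right_cont : ∀ᵐ ω ∂P, ∀ t, 0 ≤ t → ∀ᶠ s in 𝓝[>] t, η s ω = η t ω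
  jump : ∀ᵐ ω ∂P, ∀ t, 0 < t → ∃ ζ, (∀ᶠ s in 𝓝[<] t, η s ω = ζ) ∧
    ((∀ x m y, ¬ Used g Γ ω ζ t x m y) → η t ω = ζ) ∧
    (∀ x m y, Used g Γ ω ζ t x m y →
      (∀ x' m' y', Used g Γ ω ζ t x' m' y' → x' = x ∧ m' = m ∧ y' = y) →
      η t ω = move ζ x (x + markVal m))

/-- The configurations with finite upper density. -/
def Y : Set (ℤ → ℕ) :=
  {η | limsup (fun n : ℕ => (∑ x ∈ Finset.Icc (-(n : ℤ)) n, (η x : ENNReal)) / (2 * n + 1))
    atTop < ⊤}

/-- The configuration which agrees with `η` on `[-n, n]` and vanishes elsewhere. -/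
noncomputable def cut (η : ℤ → ℕ) (n : ℕ) : ℤ →₀ ℕ :=
  Finsupp.onFinset (Finset.Icc (-(n : ℤ)) n)
    (fun x => if x ∈ Finset.Icc (-(n : ℤ)) n then η x else 0) (by
      intro x hx
      by_contra h
      exact hx (if_neg h))

/-- `η` is the zero-range process driven by `Γ` and started from `η₀`: the limit of the finite
processes started from the restrictions of `η₀` to `[-n, n]`. -/
def IsZeroRangeProcess {Ω : Type*} [MeasurableSpace Ω] (g : ℕ → ℝ) (P : Measure Ω)
    (F : ℝ → MeasurableSpace Ω) (Γ : Ω → Set Atom) (η₀ : ℤ → ℕ) (η : ℝ → Ω → ℤ → ℕ) : Prop :=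
  ∃ ηs : ℕ → ℝ → Ω → ℤ →₀ ℕ, (∀ n, IsFiniteProcess g P F Γ (cut η₀ n) (ηs n)) ∧
    ∀ t, 0 ≤ t → ∀ᵐ ω ∂P, ∀ x, ∀ᶠ n in atTop, ηs n t ω x = η t ω x

/-- The configuration `η` with one particle moved from `x` to `y` (if there is one at `x`). -/
def moved (η : ℤ → ℕ) (x y : ℤ) : ℤ → ℕ :=
  if 1 ≤ η x then Function.update (Function.update η x (η x - 1)) y (η y + 1) else η

/-- The generator of the symmetric nearest neighbour zero-range process. -/
noncomputable def gen (g : ℕ → ℝ) (f : (ℤ → ℕ) → ℝ) (η : ℤ → ℕ) : ℝ :=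
  ∑' x : ℤ, (g (η x) * (1 / 2) * (f (moved η x (x + 1)) - f η) +
    g (η x) * (1 / 2) * (f (moved η x (x - 1)) - f η))

/-- `f` depends on finitely many sites and is bounded. -/
def IsBoundedLocal (f : (ℤ → ℕ) → ℝ) : Prop :=
  (∃ Λ : Finset ℤ, ∀ η ζ : ℤ → ℕ, (∀ x ∈ Λ, η x = ζ x) → f η = f ζ) ∧ ∃ C, ∀ η, |f η| ≤ C

/-- The integrated forward equation for the process `η`. -/
def IntegratedForwardEquation {Ω : Type*} [MeasurableSpace Ω] (g : ℕ → ℝ) (P : Measure Ω)
    (η₀ : ℤ → ℕ) (η : ℝ → Ω → ℤ → ℕ) : Prop :=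
  ∀ f, IsBoundedLocal f → ∀ t, 0 ≤ t →
    (∀ᵐ u ∂(volume.restrict (Set.Icc 0 t)), Integrable (fun ω => gen g f (η u ω)) P) ∧
    IntervalIntegrable (fun u => ∫ ω, gen g f (η u ω) ∂P) volume 0 t ∧
    ∫ ω, f (η t ω) ∂P = f η₀ + ∫ u in (0 : ℝ)..t, ∫ ω, gen g f (η u ω) ∂P

end Pool.Agent.Lib.MP_68fe73_pr
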