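import Pool.Agent.Lib.MP_68fe73_pr.Path

/-!
The forward equation for the finite processes.
-/

namespace Pool.Agent.Lib.MP_68fe73_pr

open MeasureTheory ProbabilityTheory Filter Topology

lemma measurableSet_box (x : ℤ) (m : Bool) (r u h : ℝ) : MeasurableSet (box x m r u h) :=
  (measurableSet_singleton x).prod ((measurableSet_singleton m).prod
    (measurableSet_Iic.prod measurableSet_Ioc))

lemma measurableSet_region (T : Finset ℤ) (G u h : ℝ) : MeasurableSet (region T G u h) :=
  (T.measurableSet).prod (MeasurableSet.univ.prod (measurableSet_Iic.prod measurableSet_Ioc))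

lemma volume_Iic_restrict {r : ℝ} :
    (volume.restrict (Set.Ici (0 : ℝ))) (Set.Iic r) = ENNReal.ofReal r := by
  rw [Measure.restrict_apply measurableSet_Iic, Set.inter_comm, Set.Ici_inter_Iic,
    Real.volume_Icc, sub_zero]

lemma volume_Ioc_restrict {u h : ℝ} (hu : 0 ≤ u) :
    (volume.restrict (Set.Ici (0 : ℝ))) (Set.Ioc u (u + h)) = ENNReal.ofReal h := by
  have h1 : Set.Ioc u (u + h) ∩ Set.Ici 0 = Set.Ioc u (u + h) :=
    Set.inter_eq_left.mpr fun t ht => hu.trans ht.1.le
  rw [Measure.restrict_apply measurableSet_Ioc, h1, Real.volume_Ioc]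
  congr 1
  ring

lemma intensity_box (x : ℤ) (m : Bool) {r u h : ℝ} (hr : 0 ≤ r) (hu : 0 ≤ u) :
    intensity (box x m r u h) = ENNReal.ofReal (r * h / 2) := by
  rw [intensity, box, Measure.prod_prod, Measure.prod_prod, Measure.prod_prod,
    volume_Iic_restrict, volume_Ioc_restrict hu, Measure.count_singleton, Measure.smul_apply,
    Measure.count_singleton, one_mul, smul_eq_mul, mul_one, ← ENNReal.ofReal_mul hr,
    show (1 / 2 : ENNReal) = ENNReal.ofReal (1 / 2) by
      rw [ENNReal.ofReal_div_of_pos (by norm_num)]; simp,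
    ← ENNReal.ofReal_mul (by norm_num)]
  congr 1
  ring

lemma intensity_region (T : Finset ℤ) {G u h : ℝ} (hG : 0 ≤ G) (hu : 0 ≤ u) :
    intensity (region T G u h) = ENNReal.ofReal (T.card * (G * h)) := by
  have h2 : (1 / 2 : ENNReal) * 2 = 1 := by
    rw [one_div, ENNReal.inv_mul_cancel (by norm_num) (by norm_num)]
  have hb : (Measure.count : Measure Bool) Set.univ = 2 := by
    rw [← Finset.coe_univ, Measure.count_apply_finset]
    simp
  rw [intensity, region, Measure.prod_prod, Measure.prod_prod, Measure.prod_prod,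
    volume_Iic_restrict, volume_Ioc_restrict hu, Measure.count_apply_finset,
    Measure.smul_apply, hb, smul_eq_mul, h2, one_mul, ENNReal.ofReal_mul (Nat.cast_nonneg _),
    ENNReal.ofReal_natCast, ENNReal.ofReal_mul hG]

variable {Ω : Type*} [mΩ : MeasurableSpace Ω] {P : Measure Ω} [IsProbabilityMeasure P]
  {F : ℝ → MeasurableSpace Ω} {Γ : Ω → Set Atom} {g : ℕ → ℝ}

omit [IsProbabilityMeasure P] in
lemma IsMarkedPoisson.measurableSet_eq (hΓ : IsMarkedPoisson P F Γ) {B : Set Atom}
    (hB : MeasurableSet B) (k : ℕ∞) : MeasurableSet {ω | cnt Γ B ω = k} :=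
  hΓ.measurable B hB (measurableSet_singleton k)

omit [IsProbabilityMeasure P] mΩ in
lemma measurableSet_future {B : Set Atom} {t : ℝ} (hB : MeasurableSet B)
    (ht : ∀ p ∈ B, t < p.2.2.2) (k : ℕ∞) : MeasurableSet[future Γ t] {ω | cnt Γ B ω = k} :=
  MeasurableSpace.measurableSet_generateFrom ⟨B, k, hB, ht, rfl⟩

/-- Probability that there is an atom in `B`. -/
lemma IsMarkedPoisson.prob_ne_zero (hΓ : IsMarkedPoisson P F Γ) {B : Set Atom}
    (hB : MeasurableSet B) {a : ℝ} (ha : 0 ≤ a) (hν : intensity B = ENNReal.ofReal a) :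
    P.real {ω | cnt Γ B ω ≠ 0} = 1 - Real.exp (-a) := by
  have h1 : {ω | cnt Γ B ω ≠ 0} = {ω | cnt Γ B ω = (0 : ℕ)}ᶜ := by
    ext ω
    simp
  rw [h1, probReal_compl_eq_one_sub (hΓ.measurableSet_eq hB _),
    hΓ.law B hB (by rw [hν]; exact ENNReal.ofReal_ne_top) 0, hν, ENNReal.toReal_ofReal ha]
  simp

/-- Probability that there are several atoms in `B`. -/
lemma IsMarkedPoisson.prob_many (hΓ : IsMarkedPoisson P F Γ) {B : Set Atom}
    (hB : MeasurableSet B) {a : ℝ} (ha : 0 ≤ a) (hν : intensity B = ENNReal.ofReal a) :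
    P.real {ω | ¬ cnt Γ B ω ≤ 1} ≤ a ^ 2 := by
  have h1 : {ω | ¬ cnt Γ B ω ≤ 1} = ({ω | cnt Γ B ω = (0 : ℕ)} ∪ {ω | cnt Γ B ω = (1 : ℕ)})ᶜ := by
    ext ω
    simp only [Set.mem_ofPred_eq, Set.mem_compl_iff, Set.mem_union, Nat.cast_zero, Nat.cast_one]
    rw [not_iff_not]
    constructor
    · intro h
      rcases h.eq_or_lt with h2 | h2
      · exact Or.inr h2
      · exact Or.inl (Order.lt_one_iff.mp h2)
    · rintro (h | h) <;> rw [h] <;> norm_num
  have hd : Disjoint {ω | cnt Γ B ω = (0 : ℕ)} {ω | cnt Γ B ω = (1 : ℕ)} := by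
    rw [Set.disjoint_left]
    intro ω h2 h3
    simp only [Set.mem_ofPred_eq] at h2 h3
    rw [h2] at h3
    exact absurd h3 (by norm_num)
  rw [h1, probReal_compl_eq_one_sub ((hΓ.measurableSet_eq hB _).union (hΓ.measurableSet_eq hB _)),
    measureReal_union hd (hΓ.measurableSet_eq hB _),
    hΓ.law B hB (by rw [hν]; exact ENNReal.ofReal_ne_top) 0,
    hΓ.law B hB (by rw [hν]; exact ENNReal.ofReal_ne_top) 1, hν, ENNReal.toReal_ofReal ha]
  simp only [pow_zero, pow_one, Nat.factorial, Nat.cast_one, mul_one, div_one]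
  have h4 := Real.one_sub_le_exp_neg a
  nlinarith

lemma abs_exp_sub {a : ℝ} (ha : 0 ≤ a) : |1 - Real.exp (-a) - a| ≤ a ^ 2 := by
  have h1 := Real.one_sub_le_exp_neg a
  have h2 : Real.exp (-a) ≤ 1 - a + a ^ 2 := by
    have h3 := Real.add_one_le_exp a
    rw [Real.exp_neg]
    rw [inv_le_comm₀ (Real.exp_pos a) (by nlinarith)]
    refine le_trans ?_ h3
    rw [inv_le_iff_one_le_mul₀ (by nlinarith)]
    nlinarith [pow_nonneg ha 3]
  rw [abs_le]
  constructor <;> nlinarith [sq_nonneg a]

/-- The constant in the error estimate. -/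
noncomputable def errConst (g : ℕ → ℝ) (N : ℕ) : ℝ :=
  (2 + 4 * N) * (3 * N * g N) ^ 2 + N * (g N) ^ 2

lemma errConst_nonneg (g : ℕ → ℝ) (N : ℕ) : 0 ≤ errConst g N := by
  unfold errConst
  positivity

lemma genF_eq (g : ℕ → ℝ) (Φ : (ℤ →₀ ℕ) → ℝ) (ζ : ℤ →₀ ℕ) :
    genF g Φ ζ = ∑ x ∈ ζ.support, ∑ m : Bool, (Φ (move ζ x (x + markVal m)) - Φ ζ) *
      (g (ζ x) / 2) := by
  unfold genF
  refine Finset.sum_congr rfl fun x _ => ?_
  rw [Fintype.sum_bool]
  simp only [markVal, ← sub_eq_add_neg]
  ring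

omit [IsProbabilityMeasure P] in
lemma IsFiniteProcess.pathRule {ζ₀ : ℤ →₀ ℕ} {η : ℝ → Ω → ℤ →₀ ℕ}
    (hη : IsFiniteProcess g P F Γ ζ₀ η) : ∀ᵐ ω ∂P, PathRule g Γ ω fun t => η t ω := by
  filter_upwards [hη.right_cont, hη.jump] with ω h1 h2 using ⟨h1, h2⟩

/-- The discrete σ-algebra on finite configurations. -/
local instance : MeasurableSpace (ℤ →₀ ℕ) := ⊤

omit [IsProbabilityMeasure P] in
lemma IsFiniteProcess.measurable {ζ₀ : ℤ →₀ ℕ} {η : ℝ → Ω → ℤ →₀ ℕ}
    (hΓ : IsMarkedPoisson P F Γ) (hη : IsFiniteProcess g P F Γ ζ₀ η) {t : ℝ} (ht : 0 ≤ t) :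
    Measurable (η t) :=
  measurable_to_countable' fun ζ => hΓ.filtration_le t _ (hη.adapted t ht ζ)

omit [IsProbabilityMeasure P] in
lemma IsFiniteProcess.measurable_comp {ζ₀ : ℤ →₀ ℕ} {η : ℝ → Ω → ℤ →₀ ℕ}
    (hΓ : IsMarkedPoisson P F Γ) (hη : IsFiniteProcess g P F Γ ζ₀ η) {t : ℝ} (ht : 0 ≤ t)
    (Φ : (ℤ →₀ ℕ) → ℝ) : Measurable fun ω => Φ (η t ω) :=
  measurable_from_top.comp (hη.measurable hΓ ht)

/-- The short time estimate. -/
lemma IsFiniteProcess.short_time {ζ₀ : ℤ →₀ ℕ} {η : ℝ → Ω → ℤ →₀ ℕ}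
    (hg : g 0 = 0) (hm : Monotone g) (hΓ : IsMarkedPoisson P F Γ)
    (hη : IsFiniteProcess g P F Γ ζ₀ η) {Φ : (ℤ →₀ ℕ) → ℝ} {C : ℝ} (hC : ∀ ζ, |Φ ζ| ≤ C)
    {u k : ℝ} (hu : 0 ≤ u) (hk : 0 ≤ k) {ζ : ℤ →₀ ℕ} {N : ℕ} (hN : ζ.degree ≤ N) :
    |∫ ω in {ω | η u ω = ζ}, Φ (η (u + k) ω) ∂P -
      P.real {ω | η u ω = ζ} * (Φ ζ + k * genF g Φ ζ)| ≤
      P.real {ω | η u ω = ζ} * (C * errConst g N * k ^ 2) := by
  classical
  have h0 : ∀ j, 0 ≤ g j := fun j => hg ▸ hm (Nat.zero_le j)
  have hC0 : 0 ≤ C := (abs_nonneg _).trans (hC 0)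
  set H := {ω | η u ω = ζ} with hH
  have hHF : MeasurableSet[F u] H := hη.adapted u hu ζ
  have hHm : MeasurableSet H := hΓ.filtration_le u _ hHF
  set R := region (nbhd ζ) (g N) u k with hR
  set B := {ω | ¬ cnt Γ R ω ≤ 1} with hB
  set Cs : ℤ → Bool → Set Ω := fun x m => {ω | cnt Γ (box x m (g (ζ x)) u k) ω ≠ 0} with hCs
  -- measurability and independence
  have hbt : ∀ x m, ∀ p ∈ box x m (g (ζ x)) u k, u < p.2.2.2 := fun x m p hp => hp.2.2.2.1
  have hRt : ∀ p ∈ R, u < p.2.2.2 := fun p hp => hp.2.2.2.1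
  have hCsf : ∀ x m, MeasurableSet[future Γ u] (Cs x m) := by
    intro x m
    have h1 : Cs x m = {ω | cnt Γ (box x m (g (ζ x)) u k) ω = 0}ᶜ := rfl
    rw [h1]
    exact (measurableSet_future (measurableSet_box _ _ _ _ _) (hbt x m) 0).compl
  have hCsm : ∀ x m, MeasurableSet (Cs x m) := by
    intro x m
    have h1 : Cs x m = {ω | cnt Γ (box x m (g (ζ x)) u k) ω = 0}ᶜ := rfl
    rw [h1]
    exact (hΓ.measurableSet_eq (measurableSet_box _ _ _ _ _) 0).compl
  have hBeq : B = ({ω | cnt Γ R ω = 0} ∪ {ω | cnt Γ R ω = 1})ᶜ := by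
    ext ω
    simp only [hB, Set.mem_ofPred_eq, Set.mem_compl_iff, Set.mem_union]
    rw [not_iff_not]
    constructor
    · intro h
      rcases h.eq_or_lt with h2 | h2
      · exact Or.inr h2
      · exact Or.inl (Order.lt_one_iff.mp h2)
    · rintro (h | h) <;> rw [h] <;> norm_num
  have hBf : MeasurableSet[future Γ u] B := by
    rw [hBeq]
    exact ((measurableSet_future (measurableSet_region _ _ _ _) hRt 0).union
      (measurableSet_future (measurableSet_region _ _ _ _) hRt 1)).compl
  have hBm : MeasurableSet B := by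
    rw [hBeq]
    exact ((hΓ.measurableSet_eq (measurableSet_region _ _ _ _) 0).union
      (hΓ.measurableSet_eq (measurableSet_region _ _ _ _) 1)).compl
  have hind : ∀ S, MeasurableSet[future Γ u] S → P.real (H ∩ S) = P.real H * P.real S := by
    intro S hS
    have := (Indep_iff _ _ P).mp (hΓ.indep_future u hu) H S hHF hS
    rw [measureReal_def, this, ENNReal.toReal_mul]
    rfl
  -- the remainder
  set X : Ω → ℝ := fun ω => Φ (η (u + k) ω) - (Φ ζ + ∑ x ∈ ζ.support, ∑ m : Bool,
    (Φ (move ζ x (x + markVal m)) - Φ ζ) * (Cs x m).indicator (fun _ => 1) ω) with hX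
  have hsupp : (ζ.support.card : ℝ) ≤ N := by exact_mod_cast (card_support_le ζ).trans hN
  have hΔ : ∀ x m, |Φ (move ζ x (x + markVal m)) - Φ ζ| ≤ 2 * C := by
    intro x m
    have h1 := hC (move ζ x (x + markVal m))
    have h2 := hC ζ
    rw [abs_le] at h1 h2 ⊢
    constructor <;> linarith
  have hXb : ∀ᵐ ω ∂(P.restrict H), ‖X ω‖ ≤ B.indicator (fun _ => C * (2 + 4 * N)) ω := by
    filter_upwards [ae_restrict_of_ae hη.pathRule, ae_restrict_mem hHm] with ω hω1 hω2
    by_cases hωB : ω ∈ B
    · rw [Set.indicator_of_mem hωB, hX, Real.norm_eq_abs]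
      have h1 : |∑ x ∈ ζ.support, ∑ m : Bool, (Φ (move ζ x (x + markVal m)) - Φ ζ) *
          (Cs x m).indicator (fun _ => (1 : ℝ)) ω| ≤ N * (4 * C) := by
        calc |∑ x ∈ ζ.support, ∑ m : Bool, (Φ (move ζ x (x + markVal m)) - Φ ζ) *
            (Cs x m).indicator (fun _ => (1 : ℝ)) ω|
            ≤ ∑ x ∈ ζ.support, ∑ m : Bool, |(Φ (move ζ x (x + markVal m)) - Φ ζ) *
              (Cs x m).indicator (fun _ => (1 : ℝ)) ω| :=
              (Finset.abs_sum_le_sum_abs _ _).trans
                (Finset.sum_le_sum fun x _ => Finset.abs_sum_le_sum_abs _ _)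
          _ ≤ ∑ _x ∈ ζ.support, ∑ _m : Bool, 2 * C := by
              refine Finset.sum_le_sum fun x _ => Finset.sum_le_sum fun m _ => ?_
              rw [abs_mul]
              refine (mul_le_mul (hΔ x m) ?_ (abs_nonneg _) (by positivity)).trans
                (le_of_eq (mul_one _))
              unfold Set.indicator
              split_ifs <;> simp
          _ = ζ.support.card * (4 * C) := by
              rw [Finset.sum_const, Finset.sum_const, nsmul_eq_mul, nsmul_eq_mul,
                Finset.card_univ, Fintype.card_bool]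
              push_cast
              ring
          _ ≤ N * (4 * C) := mul_le_mul_of_nonneg_right hsupp (by positivity)
      have h2 := hC (η (u + k) ω)
      have h3 := hC ζ
      rw [abs_le] at h1 h2 h3 ⊢
      constructor <;> nlinarith
    · have h1 : cnt Γ R ω ≤ 1 := not_not.mp hωB
      have h2 := hω1.outcome hm hu hk hN hω2 h1 Φ
      rw [Set.indicator_of_notMem hωB, hX]
      simp only
      rw [h2, norm_le_zero_iff, sub_eq_zero]
      congr 1
      refine Finset.sum_congr rfl fun x _ => Finset.sum_congr rfl fun m _ => ?_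
      congr 1
      by_cases hc : cnt Γ (box x m (g (ζ x)) u k) ω ≠ 0
      · rw [if_pos hc, Set.indicator_of_mem (show ω ∈ Cs x m from hc)]
      · rw [if_neg hc, Set.indicator_of_notMem (show ω ∉ Cs x m from hc)]
  have hint1 : Integrable (fun ω => Φ (η (u + k) ω)) P :=
    Integrable.of_bound (hη.measurable_comp hΓ (by linarith) Φ).aestronglyMeasurable C
      (Eventually.of_forall fun ω => hC _)
  have hint2 : ∀ x m, Integrable (fun ω => (Φ (move ζ x (x + markVal m)) - Φ ζ) *
      (Cs x m).indicator (fun _ => (1 : ℝ)) ω) P := fun x m =>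
    ((integrable_const (1 : ℝ)).indicator (hCsm x m)).const_mul _
  have hXint : ∫ ω in H, X ω ∂P = ∫ ω in H, Φ (η (u + k) ω) ∂P - (P.real H * Φ ζ +
      ∑ x ∈ ζ.support, ∑ m : Bool, (Φ (move ζ x (x + markVal m)) - Φ ζ) *
        (P.real H * P.real (Cs x m))) := by
    rw [hX]
    simp only
    rw [integral_sub hint1.integrableOn, integral_add (integrable_const _),
      integral_finsetSum, integral_const, measureReal_restrict_apply_univ, smul_eq_mul]
    · congr 2
      refine Finset.sum_congr rfl fun x _ => ?_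
      rw [integral_finsetSum]
      · refine Finset.sum_congr rfl fun m _ => ?_
        rw [integral_const_mul, integral_indicator_const _ (hCsm x m), smul_eq_mul, mul_one,
          measureReal_restrict_apply (hCsm x m), Set.inter_comm, hind _ (hCsf x m)]
      · intro m _
        exact (hint2 x m).integrableOn
    · intro x _
      exact integrable_finsetSum _ fun m _ => (hint2 x m).integrableOn
    · exact integrable_finsetSum _ fun x _ => integrable_finsetSum _ fun m _ =>
        (hint2 x m).integrableOn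
    · exact (integrable_const _).add (integrable_finsetSum _ fun x _ =>
        integrable_finsetSum _ fun m _ => (hint2 x m).integrableOn)
  have hXle : |∫ ω in H, X ω ∂P| ≤ P.real H * (C * (2 + 4 * N) * (3 * N * g N * k) ^ 2) := by
    have h1 := norm_integral_le_of_norm_le
      ((integrable_const (C * (2 + 4 * N))).indicator hBm) hXb
    rw [Real.norm_eq_abs] at h1
    refine h1.trans ?_
    rw [integral_indicator_const _ hBm, measureReal_restrict_apply hBm, Set.inter_comm,
      hind B hBf, smul_eq_mul]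
    have h2 : P.real B ≤ (3 * N * g N * k) ^ 2 := by
      refine (hΓ.prob_many (measurableSet_region _ _ _ _) (a := (nbhd ζ).card * (g N * k))
        (by have := h0 N; positivity) (intensity_region _ (h0 N) hu)).trans ?_
      apply pow_le_pow_left₀ (by have := h0 N; positivity)
      have h3 : ((nbhd ζ).card : ℝ) ≤ 3 * N := by
        exact_mod_cast (card_nbhd_le ζ).trans (Nat.mul_le_mul_left 3 hN)
      calc ((nbhd ζ).card : ℝ) * (g N * k) ≤ 3 * N * (g N * k) :=
            mul_le_mul_of_nonneg_right h3 (mul_nonneg (h0 N) hk)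
        _ = 3 * N * g N * k := by ring
    calc P.real H * P.real B * (C * (2 + 4 * N))
        = P.real H * (C * (2 + 4 * N) * P.real B) := by ring
      _ ≤ _ := by gcongr
  have hsum : |∑ x ∈ ζ.support, ∑ m : Bool, (Φ (move ζ x (x + markVal m)) - Φ ζ) *
        (P.real H * P.real (Cs x m)) - P.real H * (k * genF g Φ ζ)| ≤
      P.real H * (C * (N * (g N) ^ 2) * k ^ 2) := by
    rw [genF_eq, Finset.mul_sum, Finset.mul_sum, ← Finset.sum_sub_distrib]
    calc |∑ x ∈ ζ.support, (∑ m : Bool, (Φ (move ζ x (x + markVal m)) - Φ ζ) *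
        (P.real H * P.real (Cs x m)) - P.real H * (k * ∑ m : Bool,
          (Φ (move ζ x (x + markVal m)) - Φ ζ) * (g (ζ x) / 2)))|
        ≤ ∑ x ∈ ζ.support, P.real H * (C * (g N) ^ 2 * k ^ 2) := by
          refine (Finset.abs_sum_le_sum_abs _ _).trans (Finset.sum_le_sum fun x _ => ?_)
          rw [Finset.mul_sum, Finset.mul_sum, ← Finset.sum_sub_distrib]
          calc |∑ m : Bool, ((Φ (move ζ x (x + markVal m)) - Φ ζ) *
              (P.real H * P.real (Cs x m)) - P.real H * (k *
              ((Φ (move ζ x (x + markVal m)) - Φ ζ) * (g (ζ x) / 2))))|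
              ≤ ∑ _m : Bool, P.real H * (C * (g N) ^ 2 * k ^ 2 / 2) := by
                refine (Finset.abs_sum_le_sum_abs _ _).trans (Finset.sum_le_sum fun m _ => ?_)
                have h1 : (Φ (move ζ x (x + markVal m)) - Φ ζ) * (P.real H * P.real (Cs x m)) -
                    P.real H * (k * ((Φ (move ζ x (x + markVal m)) - Φ ζ) * (g (ζ x) / 2))) =
                    P.real H * ((Φ (move ζ x (x + markVal m)) - Φ ζ) *
                      (1 - Real.exp (-(g (ζ x) * k / 2)) - g (ζ x) * k / 2)) := by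
                  rw [hΓ.prob_ne_zero (measurableSet_box _ _ _ _ _)
                    (a := g (ζ x) * k / 2) (by have := h0 (ζ x); positivity)
                    (intensity_box _ _ (h0 _) hu)]
                  ring
                rw [h1, abs_mul, abs_of_nonneg measureReal_nonneg, abs_mul]
                apply mul_le_mul_of_nonneg_left _ measureReal_nonneg
                have h2 : g (ζ x) ≤ g N := hm ((le_degree ζ x).trans hN)
                have h3 : |1 - Real.exp (-(g (ζ x) * k / 2)) - g (ζ x) * k / 2| ≤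
                    (g N * k / 2) ^ 2 := by
                  refine (abs_exp_sub (by have := h0 (ζ x); positivity)).trans ?_
                  apply pow_le_pow_left₀ (by have := h0 (ζ x); positivity)
                  gcongr
                calc |Φ (move ζ x (x + markVal m)) - Φ ζ| *
                    |1 - Real.exp (-(g (ζ x) * k / 2)) - g (ζ x) * k / 2|
                    ≤ 2 * C * (g N * k / 2) ^ 2 :=
                      mul_le_mul (hΔ x m) h3 (abs_nonneg _) (by positivity)
                  _ = C * (g N) ^ 2 * k ^ 2 / 2 := by ring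
            _ = P.real H * (C * (g N) ^ 2 * k ^ 2) := by
                rw [Finset.sum_const, Finset.card_univ, Fintype.card_bool, nsmul_eq_mul]
                push_cast
                ring
      _ = ζ.support.card * (P.real H * (C * (g N) ^ 2 * k ^ 2)) := by
          rw [Finset.sum_const, nsmul_eq_mul]
      _ ≤ N * (P.real H * (C * (g N) ^ 2 * k ^ 2)) := by
          apply mul_le_mul_of_nonneg_right hsupp
          have : 0 ≤ P.real H := measureReal_nonneg
          positivity
      _ = P.real H * (C * (N * (g N) ^ 2) * k ^ 2) := by ring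
  have hfin : ∫ ω in H, Φ (η (u + k) ω) ∂P - P.real H * (Φ ζ + k * genF g Φ ζ) =
      ∫ ω in H, X ω ∂P + (∑ x ∈ ζ.support, ∑ m : Bool,
        (Φ (move ζ x (x + markVal m)) - Φ ζ) * (P.real H * P.real (Cs x m)) -
        P.real H * (k * genF g Φ ζ)) := by
    rw [hXint]
    ring
  rw [hfin]
  refine (abs_add_le _ _).trans ((add_le_add hXle hsum).trans (le_of_eq ?_))
  unfold errConst
  ring

end Pool.Agent.Lib.MP_68fe73_pr
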