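import Pool.Agent.Lib.MP_68fe73_pr.Dynkin

/-!
Conservation of the number of particles and the forward equation for the finite processes.
-/

namespace Pool.Agent.Lib.MP_68fe73_pr

open MeasureTheory ProbabilityTheory Filter Topology

variable {Ω : Type*} [mΩ : MeasurableSpace Ω] {P : Measure Ω} [IsProbabilityMeasure P]
  {F : ℝ → MeasurableSpace Ω} {Γ : Ω → Set Atom} {g : ℕ → ℝ} {ζ₀ : ℤ →₀ ℕ}
  {η : ℝ → Ω → ℤ →₀ ℕ}

omit [IsProbabilityMeasure P] in
lemma IsFiniteProcess.hasSum_integral (hΓ : IsMarkedPoisson P F Γ)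
    (hη : IsFiniteProcess g P F Γ ζ₀ η) {u : ℝ} (hu : 0 ≤ u) {X : Ω → ℝ} (hX : Integrable X P) :
    HasSum (fun ζ => ∫ ω in {ω | η u ω = ζ}, X ω ∂P) (∫ ω, X ω ∂P) := by
  have h1 : (⋃ ζ, {ω | η u ω = ζ}) = Set.univ := by
    ext ω
    simp
  have h2 := hasSum_integral_iUnion (μ := P) (f := X) (s := fun ζ => {ω | η u ω = ζ})
    (fun ζ => hΓ.filtration_le u _ (hη.adapted u hu ζ)) (by
      intro ζ ζ' hne
      rw [Function.onFun, Set.disjoint_left]
      rintro ω h3 h4
      exact hne (h3.symm.trans h4)) hX.integrableOn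
  rwa [h1, Measure.restrict_univ] at h2

lemma IsFiniteProcess.hasSum_comp (hΓ : IsMarkedPoisson P F Γ)
    (hη : IsFiniteProcess g P F Γ ζ₀ η) {u : ℝ} (hu : 0 ≤ u) {Ψ : (ℤ →₀ ℕ) → ℝ} {C : ℝ}
    (hC : ∀ ζ, |Ψ ζ| ≤ C) :
    HasSum (fun ζ => P.real {ω | η u ω = ζ} * Ψ ζ) (∫ ω, Ψ (η u ω) ∂P) := by
  have h1 : Integrable (fun ω => Ψ (η u ω)) P :=
    Integrable.of_bound (hη.measurable_comp hΓ hu Ψ).aestronglyMeasurable C
      (Eventually.of_forall fun ω => hC _)
  have h2 := hη.hasSum_integral hΓ hu h1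
  refine h2.congr_fun ?_ |> fun h => h
  intro ζ
  have h3 : ∫ ω in {ω | η u ω = ζ}, Ψ (η u ω) ∂P = ∫ _ω in {ω | η u ω = ζ}, Ψ ζ ∂P := by
    refine setIntegral_congr_fun (hΓ.filtration_le u _ (hη.adapted u hu ζ)) fun ω hω => ?_
    have h4 : η u ω = ζ := hω
    simp only [h4]
  rw [h3, integral_const, measureReal_restrict_apply_univ, smul_eq_mul]

/-- Bound of the generator. -/
lemma abs_genF_le (hg : g 0 = 0) (hm : Monotone g) {Φ : (ℤ →₀ ℕ) → ℝ} {C : ℝ}
    (hC : ∀ ζ, |Φ ζ| ≤ C) {ζ : ℤ →₀ ℕ} {N : ℕ} (hN : ζ.degree ≤ N) :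
    |genF g Φ ζ| ≤ 2 * N * g N * C := by
  have h0 : ∀ j, 0 ≤ g j := fun j => hg ▸ hm (Nat.zero_le j)
  have hC0 : 0 ≤ C := (abs_nonneg _).trans (hC 0)
  have hsupp : (ζ.support.card : ℝ) ≤ N := by exact_mod_cast (card_support_le ζ).trans hN
  rw [genF_eq]
  calc |∑ x ∈ ζ.support, ∑ m : Bool, (Φ (move ζ x (x + markVal m)) - Φ ζ) * (g (ζ x) / 2)|
      ≤ ∑ x ∈ ζ.support, ∑ m : Bool, |(Φ (move ζ x (x + markVal m)) - Φ ζ) * (g (ζ x) / 2)| :=
        (Finset.abs_sum_le_sum_abs _ _).trans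
          (Finset.sum_le_sum fun x _ => Finset.abs_sum_le_sum_abs _ _)
    _ ≤ ∑ _x ∈ ζ.support, ∑ _m : Bool, C * g N := by
        refine Finset.sum_le_sum fun x _ => Finset.sum_le_sum fun m _ => ?_
        have h1 := hC (move ζ x (x + markVal m))
        have h2 := hC ζ
        have h3 : |Φ (move ζ x (x + markVal m)) - Φ ζ| ≤ 2 * C := by
          rw [abs_le] at h1 h2 ⊢
          constructor <;> linarith
        have h4 : g (ζ x) ≤ g N := hm ((le_degree ζ x).trans hN)
        have h5 := h0 (ζ x)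
        rw [abs_mul, abs_of_nonneg (by positivity : 0 ≤ g (ζ x) / 2)]
        calc |Φ (move ζ x (x + markVal m)) - Φ ζ| * (g (ζ x) / 2)
            ≤ 2 * C * (g N / 2) := by gcongr
          _ = C * g N := by ring
    _ = ζ.support.card * (2 * (C * g N)) := by
        rw [Finset.sum_const, Finset.sum_const, nsmul_eq_mul, nsmul_eq_mul, Finset.card_univ,
          Fintype.card_bool]
        push_cast
        ring
    _ ≤ N * (2 * (C * g N)) := by
        have := h0 N
        gcongr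
    _ = 2 * N * g N * C := by ring

lemma genF_congr {Φ Φ' : (ℤ →₀ ℕ) → ℝ} {ζ : ℤ →₀ ℕ}
    (h : ∀ ξ : ℤ →₀ ℕ, ξ.degree = ζ.degree → Φ ξ = Φ' ξ) : genF g Φ ζ = genF g Φ' ζ := by
  unfold genF
  refine Finset.sum_congr rfl fun x hx => ?_
  have hx1 : 1 ≤ ζ x := Nat.one_le_iff_ne_zero.mpr (Finsupp.mem_support_iff.mp hx)
  rw [h _ (degree_move hx1 _), h _ (degree_move hx1 _), h ζ rfl]

/-- The number of particles is conserved. -/
lemma IsFiniteProcess.degree_eq (hg : g 0 = 0) (hm : Monotone g) (hΓ : IsMarkedPoisson P F Γ)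
    (hη : IsFiniteProcess g P F Γ ζ₀ η) {t : ℝ} (ht : 0 ≤ t) :
    ∀ᵐ ω ∂P, (η t ω).degree = ζ₀.degree := by
  classical
  set N := ζ₀.degree with hN
  set Φ : (ℤ →₀ ℕ) → ℝ := fun ζ => if ζ.degree = N then 1 else 0 with hΦ
  have hC : ∀ ζ, |Φ ζ| ≤ 1 := by
    intro ζ
    simp only [hΦ]
    split_ifs <;> simp
  set K := errConst g N with hK
  have hK0 : 0 ≤ K := errConst_nonneg g N
  have hstep : ∀ u k, 0 ≤ u → 0 ≤ k →
      ∫ ω, Φ (η u ω) ∂P - K * k ^ 2 ≤ ∫ ω, Φ (η (u + k) ω) ∂P := by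
    intro u k hu hk
    have h1 : Integrable (fun ω => Φ (η (u + k) ω)) P :=
      Integrable.of_bound (hη.measurable_comp hΓ (by linarith) Φ).aestronglyMeasurable 1
        (Eventually.of_forall fun ω => hC _)
    have h2 := hη.hasSum_integral hΓ hu h1
    have h3 := hη.hasSum_comp hΓ hu hC
    have h4 : HasSum (fun ζ => P.real {ω | η u ω = ζ} * Φ ζ -
        K * k ^ 2 * (P.real {ω | η u ω = ζ} * 1)) (∫ ω, Φ (η u ω) ∂P - K * k ^ 2 * 1) := by
      have h5 := hη.hasSum_comp hΓ hu (Ψ := fun _ => 1) (C := 1) (by simp)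
      rw [integral_const, probReal_univ, one_smul] at h5
      exact h3.sub (h5.mul_left _)
    have h6 := hasSum_le (fun ζ => ?_) h4 h2
    · linarith
    · by_cases hζ : ζ.degree = N
      · have h7 := hη.short_time hg hm hΓ hC hu hk (ζ := ζ) hζ.le
        have h8 : genF g Φ ζ = 0 := by
          rw [genF_congr (Φ' := fun _ => 1)]
          · simp [genF]
          · intro ξ hξ
            simp only [hΦ, hξ, hζ, if_true]
        rw [h8, abs_le] at h7
        linarith [h7.1]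
      · have h7 : Φ ζ = 0 := if_neg hζ
        have h8 : 0 ≤ ∫ ω in {ω | η u ω = ζ}, Φ (η (u + k) ω) ∂P := by
          refine integral_nonneg fun ω => ?_
          simp only [hΦ, Pi.zero_apply]
          split_ifs <;> norm_num
        have h9 : 0 ≤ K * k ^ 2 * (P.real {ω | η u ω = ζ} * 1) := by
          have : 0 ≤ P.real {ω | η u ω = ζ} := measureReal_nonneg
          positivity
        rw [h7, mul_zero]
        linarith
  have hinit : ∫ ω, Φ (η 0 ω) ∂P = 1 := by
    have h1 : (fun ω => Φ (η 0 ω)) =ᵐ[P] fun _ => 1 := by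
      filter_upwards [hη.init] with ω hω
      rw [hω]
      exact if_pos rfl
    rw [integral_congr_ae h1, integral_const, probReal_univ, one_smul]
  have hiter : ∀ k, 0 ≤ k → ∀ i : ℕ, 1 - i * (K * k ^ 2) ≤ ∫ ω, Φ (η (i * k) ω) ∂P := by
    intro k hk i
    induction i with
    | zero => simp [hinit]
    | succ i ih =>
      have h1 := hstep (i * k) k (by positivity) hk
      have h2 : ((i + 1 : ℕ) : ℝ) * k = i * k + k := by push_cast; ring
      rw [h2]
      push_cast
      linarith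
  have hone : (1 : ℝ) ≤ ∫ ω, Φ (η t ω) ∂P := by
    have h1 : ∀ j : ℕ, 1 - K * t ^ 2 / ((j : ℝ) + 1) ≤ ∫ ω, Φ (η t ω) ∂P := by
      intro j
      have h2 := hiter (t / (j + 1)) (by positivity) (j + 1)
      have h3 : ((j + 1 : ℕ) : ℝ) * (t / (j + 1)) = t := by
        push_cast
        field_simp
      rw [h3] at h2
      refine le_trans (le_of_eq ?_) h2
      push_cast
      field_simp
    have h4 : Tendsto (fun j : ℕ => 1 - K * t ^ 2 / ((j : ℝ) + 1)) atTop (𝓝 (1 - 0)) := by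
      apply Tendsto.const_sub
      have := tendsto_one_div_add_atTop_nhds_zero_nat (𝕜 := ℝ)
      have h5 := this.const_mul (K * t ^ 2)
      rw [mul_zero] at h5
      refine h5.congr fun j => ?_
      ring
    rw [sub_zero] at h4
    exact le_of_tendsto' h4 h1
  have hind : (fun ω => Φ (η t ω)) = {ω | (η t ω).degree = N}.indicator fun _ => (1 : ℝ) := by
    funext ω
    simp only [hΦ, Set.indicator_apply, Set.mem_ofPred_eq]
  have hms : MeasurableSet {ω | (η t ω).degree = N} := by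
    have h1 : {ω | (η t ω).degree = N} = (fun ω => Φ (η t ω)) ⁻¹' {1} := by
      ext ω
      simp only [Set.mem_ofPred_eq, Set.mem_preimage, Set.mem_singleton_iff, hΦ]
      split_ifs with h <;> simp [h]
    rw [h1]
    exact hη.measurable_comp hΓ ht Φ (measurableSet_singleton 1)
  rw [hind, integral_indicator_const _ hms, smul_eq_mul, mul_one] at hone
  have h5 : P.real {ω | (η t ω).degree = N}ᶜ = 0 := by
    rw [probReal_compl_eq_one_sub hms]
    have : P.real {ω | (η t ω).degree = N} ≤ 1 := measureReal_le_one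
    linarith
  rw [measureReal_eq_zero_iff] at h5
  exact h5

open Classical in
/-- The short time estimate for expectations. -/
lemma IsFiniteProcess.expectation_short (hg : g 0 = 0) (hm : Monotone g)
    (hΓ : IsMarkedPoisson P F Γ) (hη : IsFiniteProcess g P F Γ ζ₀ η) {Φ : (ℤ →₀ ℕ) → ℝ}
    {C : ℝ} (hC : ∀ ζ, |Φ ζ| ≤ C) {u k : ℝ} (hu : 0 ≤ u) (hk : 0 ≤ k) :
    |∫ ω, Φ (η (u + k) ω) ∂P - ∫ ω, Φ (η u ω) ∂P -
      k * ∫ ω, (if (η u ω).degree = ζ₀.degree then genF g Φ (η u ω) else 0) ∂P| ≤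
      C * errConst g ζ₀.degree * k ^ 2 := by
  set N := ζ₀.degree with hN
  set Ψ : (ℤ →₀ ℕ) → ℝ := fun ζ => if ζ.degree = N then genF g Φ ζ else 0 with hΨ
  have hC0 : 0 ≤ C := (abs_nonneg _).trans (hC 0)
  have h0 : ∀ j, 0 ≤ g j := fun j => hg ▸ hm (Nat.zero_le j)
  have hΨC : ∀ ζ, |Ψ ζ| ≤ 2 * N * g N * C := by
    intro ζ
    simp only [hΨ]
    split_ifs with h
    · exact abs_genF_le hg hm hC h.le
    · rw [abs_zero]
      have := h0 N
      positivity
  have h1 : Integrable (fun ω => Φ (η (u + k) ω)) P :=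
    Integrable.of_bound (hη.measurable_comp hΓ (by linarith) Φ).aestronglyMeasurable C
      (Eventually.of_forall fun ω => hC _)
  have h2 := hη.hasSum_integral hΓ hu h1
  have h3 := hη.hasSum_comp hΓ hu hC
  have h4 := hη.hasSum_comp hΓ hu hΨC
  have h5 := hη.hasSum_comp hΓ hu (Ψ := fun _ => 1) (C := 1) (by simp)
  rw [integral_const, probReal_univ, one_smul] at h5
  have h6 := (h2.sub h3).sub (h4.mul_left k)
  have h7 := h5.mul_left (C * errConst g N * k ^ 2)
  have hb : ∀ ζ, |(∫ ω in {ω | η u ω = ζ}, Φ (η (u + k) ω) ∂P) -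
      P.real {ω | η u ω = ζ} * Φ ζ - k * (P.real {ω | η u ω = ζ} * Ψ ζ)| ≤
      C * errConst g N * k ^ 2 * (P.real {ω | η u ω = ζ} * 1) := by
    intro ζ
    by_cases hζ : ζ.degree = N
    · have h8 := hη.short_time hg hm hΓ hC hu hk (ζ := ζ) hζ.le
      have h9 : Ψ ζ = genF g Φ ζ := if_pos hζ
      rw [h9]
      refine le_trans (le_of_eq ?_) (h8.trans (le_of_eq ?_))
      · congr 1
        ring
      · ring
    · have h8 : P {ω | η u ω = ζ} = 0 := by
        refine measure_mono_null ?_ (ae_iff.mp (hη.degree_eq hg hm hΓ hu))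
        intro ω hω hd
        have : η u ω = ζ := hω
        rw [this] at hd
        exact hζ hd
      have h9 : P.real {ω | η u ω = ζ} = 0 := by rw [measureReal_def, h8]; rfl
      have h10 : ∫ ω in {ω | η u ω = ζ}, Φ (η (u + k) ω) ∂P = 0 := setIntegral_measure_zero _ h8
      rw [h9, h10]
      simp
  have h11 : ∀ ζ, -(C * errConst g N * k ^ 2 * (P.real {ω | η u ω = ζ} * 1)) ≤
      (∫ ω in {ω | η u ω = ζ}, Φ (η (u + k) ω) ∂P) -
      P.real {ω | η u ω = ζ} * Φ ζ - k * (P.real {ω | η u ω = ζ} * Ψ ζ) := fun ζ =>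
    (abs_le.mp (hb ζ)).1
  have h12 := hasSum_le h11 h7.neg h6
  have h13 := hasSum_le (fun ζ => (abs_le.mp (hb ζ)).2) h6 h7
  rw [abs_le]
  constructor <;> linarith

lemma continuousOn_of_bound {φ : ℝ → ℝ} {A B : ℝ}
    (h : ∀ u k, 0 ≤ u → 0 ≤ k → |φ (u + k) - φ u| ≤ A * k + B * k ^ 2) :
    ContinuousOn φ (Set.Ici 0) := by
  intro x hx
  rw [ContinuousWithinAt, tendsto_iff_dist_tendsto_zero]
  have h1 : ∀ᶠ y in 𝓝[Set.Ici 0] x, dist (φ y) (φ x) ≤ A * |y - x| + B * |y - x| ^ 2 := by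
    filter_upwards [self_mem_nhdsWithin] with y hy
    rw [Real.dist_eq]
    rcases le_total x y with hxy | hxy
    · have := h x (y - x) hx (by linarith)
      rwa [add_sub_cancel, show y - x = |y - x| from (abs_of_nonneg (by linarith)).symm] at this
    · have := h y (x - y) hy (by linarith)
      rw [add_sub_cancel, abs_sub_comm, show x - y = |y - x| by
        rw [abs_sub_comm]; exact (abs_of_nonneg (by linarith)).symm] at this
      exact this
  refine squeeze_zero' (Eventually.of_forall fun y => dist_nonneg) h1 ?_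
  have h2 : Tendsto (fun y => |y - x|) (𝓝[Set.Ici 0] x) (𝓝 |x - x|) :=
    ((continuous_abs.comp (continuous_id.sub continuous_const)).tendsto x).mono_left
      nhdsWithin_le_nhds
  rw [sub_self, abs_zero] at h2
  have h3 := (h2.const_mul A).add ((h2.pow 2).const_mul B)
  simpa using h3

/-- The integrated forward equation from short time estimates. -/
lemma integral_of_bound {φ ψ : ℝ → ℝ} {A B D : ℝ}
    (h : ∀ u k, 0 ≤ u → 0 ≤ k → |φ (u + k) - φ u - k * ψ u| ≤ B * k ^ 2)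
    (hψ : ContinuousOn ψ (Set.Ici 0)) (hD : ∀ u, 0 ≤ u → |ψ u| ≤ D) (_hA : A = D)
    {t : ℝ} (ht : 0 ≤ t) : ∫ u in (0 : ℝ)..t, ψ u = φ t - φ 0 := by
  have hφ : ContinuousOn φ (Set.Ici 0) := by
    refine continuousOn_of_bound (A := D) (B := B) fun u k hu hk => ?_
    have h1 := h u k hu hk
    have h2 := hD u hu
    have h3 : φ (u + k) - φ u = (φ (u + k) - φ u - k * ψ u) + k * ψ u := by ring
    rw [h3]
    refine (abs_add_le _ _).trans ?_
    rw [abs_mul, abs_of_nonneg hk]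
    nlinarith
  apply intervalIntegral.integral_eq_sub_of_hasDeriv_right_of_le ht
    (hφ.mono Set.Icc_subset_Ici_self)
  · intro x hx
    rw [hasDerivWithinAt_iff_tendsto_slope' (by simp)]
    rw [tendsto_iff_dist_tendsto_zero]
    have h1 : ∀ᶠ y in 𝓝[>] x, dist (slope φ x y) (ψ x) ≤ B * (y - x) := by
      filter_upwards [self_mem_nhdsWithin] with y hy
      have hxy : 0 < y - x := by
        have : x < y := hy
        linarith
      have h2 := h x (y - x) hx.1.le hxy.le
      rw [add_sub_cancel] at h2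
      rw [Real.dist_eq, slope_def_field]
      have h3 : (φ y - φ x) / (y - x) - ψ x = (φ y - φ x - (y - x) * ψ x) / (y - x) := by
        field_simp
      rw [h3, abs_div, abs_of_pos hxy, div_le_iff₀ hxy]
      refine h2.trans (le_of_eq ?_)
      ring
    refine squeeze_zero' (Eventually.of_forall fun y => dist_nonneg) h1 ?_
    have h2 : Tendsto (fun y => y - x) (𝓝[>] x) (𝓝 (x - x)) :=
      ((continuous_id.sub continuous_const).tendsto x).mono_left nhdsWithin_le_nhds
    rw [sub_self] at h2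
    simpa using h2.const_mul B
  · exact (hψ.mono (by
      rw [Set.uIcc_of_le ht]
      exact Set.Icc_subset_Ici_self)).intervalIntegrable

open Classical in
/-- The forward equation for the finite processes. -/
theorem IsFiniteProcess.forward (hg : g 0 = 0) (hm : Monotone g) (hΓ : IsMarkedPoisson P F Γ)
    (hη : IsFiniteProcess g P F Γ ζ₀ η) {Φ : (ℤ →₀ ℕ) → ℝ} {C : ℝ}
    (hC : ∀ ζ : ℤ →₀ ℕ, ζ.degree = ζ₀.degree → |Φ ζ| ≤ C) :
    ContinuousOn (fun u => ∫ ω, genF g Φ (η u ω) ∂P) (Set.Ici 0) ∧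
    ContinuousOn (fun u => ∫ ω, Φ (η u ω) ∂P) (Set.Ici 0) ∧
    ∀ t, 0 ≤ t → ∫ ω, Φ (η t ω) ∂P = Φ ζ₀ + ∫ u in (0 : ℝ)..t, ∫ ω, genF g Φ (η u ω) ∂P := by
  set N := ζ₀.degree with hN
  have h0 : ∀ j, 0 ≤ g j := fun j => hg ▸ hm (Nat.zero_le j)
  have hC0 : 0 ≤ C := (abs_nonneg _).trans (hC ζ₀ rfl)
  set Φ' : (ℤ →₀ ℕ) → ℝ := fun ζ => if ζ.degree = N then Φ ζ else 0 with hΦ'
  set Ψ : (ℤ →₀ ℕ) → ℝ := fun ζ => if ζ.degree = N then genF g Φ' ζ else 0 with hΨ
  have hC' : ∀ ζ, |Φ' ζ| ≤ C := by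
    intro ζ
    simp only [hΦ']
    split_ifs with h
    · exact hC ζ h
    · rw [abs_zero]
      exact hC0
  have hΨC : ∀ ζ, |Ψ ζ| ≤ 2 * N * g N * C := by
    intro ζ
    simp only [hΨ]
    split_ifs with h
    · exact abs_genF_le hg hm hC' h.le
    · rw [abs_zero]
      have := h0 N
      positivity
  have e1 : ∀ u, 0 ≤ u → ∫ ω, Φ (η u ω) ∂P = ∫ ω, Φ' (η u ω) ∂P := by
    intro u hu
    refine integral_congr_ae ?_
    filter_upwards [hη.degree_eq hg hm hΓ hu] with ω hω
    exact (if_pos hω).symm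
  have e2 : ∀ u, 0 ≤ u → ∫ ω, genF g Φ (η u ω) ∂P = ∫ ω, Ψ (η u ω) ∂P := by
    intro u hu
    refine integral_congr_ae ?_
    filter_upwards [hη.degree_eq hg hm hΓ hu] with ω hω
    have h1 : Ψ (η u ω) = genF g Φ' (η u ω) := if_pos hω
    rw [h1]
    refine genF_congr fun ξ hξ => ?_
    exact (if_pos (hξ.trans hω)).symm
  have hψ : ContinuousOn (fun u => ∫ ω, Ψ (η u ω) ∂P) (Set.Ici 0) := by
    refine continuousOn_of_bound (A := 2 * N * g N * (2 * N * g N * C))
      (B := 2 * N * g N * C * errConst g N) fun u k hu hk => ?_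
    have h1 := hη.expectation_short hg hm hΓ hΨC hu hk
    have h2 : |∫ ω, (if (η u ω).degree = N then genF g Ψ (η u ω) else 0) ∂P| ≤
        2 * N * g N * (2 * N * g N * C) := by
      have h3 := norm_integral_le_of_norm_le_const (μ := P)
        (f := fun ω => if (η u ω).degree = N then genF g Ψ (η u ω) else 0)
        (C := 2 * N * g N * (2 * N * g N * C)) (Eventually.of_forall fun ω => by

          split_ifs with h
          · exact abs_genF_le hg hm hΨC h.le
          · rw [norm_zero]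
            have := h0 N
            positivity)
      rwa [probReal_univ, mul_one, Real.norm_eq_abs] at h3
    rw [abs_le] at h1 h2 ⊢
    constructor <;> nlinarith
  have hφ := fun u k hu hk => hη.expectation_short hg hm hΓ hC' (u := u) (k := k) hu hk
  have hD : ∀ u, 0 ≤ u → |∫ ω, Ψ (η u ω) ∂P| ≤ 2 * N * g N * C := by
    intro u _
    have h3 := norm_integral_le_of_norm_le_const (μ := P) (f := fun ω => Ψ (η u ω))
      (C := 2 * N * g N * C) (Eventually.of_forall fun ω => hΨC _)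
    rwa [probReal_univ, mul_one, Real.norm_eq_abs] at h3
  refine ⟨hψ.congr fun u hu => e2 u hu, ?_, fun t ht => ?_⟩
  · refine (continuousOn_of_bound (φ := fun u => ∫ ω, Φ' (η u ω) ∂P) (A := 2 * N * g N * C)
      (B := C * errConst g N) fun u k hu hk => ?_).congr fun u hu => e1 u hu
    have h1 := hφ u k hu hk
    have h2 := hD u hu
    simp only [hΨ] at h2
    rw [abs_le] at h1 h2 ⊢
    constructor <;> nlinarith
  · have h1 := integral_of_bound (φ := fun u => ∫ ω, Φ' (η u ω) ∂P)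
      (ψ := fun u => ∫ ω, Ψ (η u ω) ∂P) (B := C * errConst g N) (fun u k hu hk => hφ u k hu hk)
      hψ hD rfl ht
    have h2 : ∫ ω, Φ' (η 0 ω) ∂P = Φ ζ₀ := by
      have h3 : (fun ω => Φ' (η 0 ω)) =ᵐ[P] fun _ => Φ ζ₀ := by
        filter_upwards [hη.init] with ω hω
        rw [hω]
        exact if_pos rfl
      rw [integral_congr_ae h3, integral_const, probReal_univ, one_smul]
    have h4 : ∫ u in (0 : ℝ)..t, ∫ ω, genF g Φ (η u ω) ∂P =
        ∫ u in (0 : ℝ)..t, ∫ ω, Ψ (η u ω) ∂P := by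
      refine intervalIntegral.integral_congr fun u hu => ?_
      rw [Set.uIcc_of_le ht] at hu
      exact e2 u hu.1
    rw [h4, h1, e1 t ht, h2]
    ring

end Pool.Agent.Lib.MP_68fe73_pr
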