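import Mathlib

/-!
The passage to the limit.
-/

namespace Pool.Agent.Lib.MP_68fe73_pr

open MeasureTheory ProbabilityTheory Filter Topology

/-- `H` depends on finitely many sites. -/
def Loc {β : Type*} (H : (ℤ → ℕ) → β) : Prop :=
  ∃ Λ : Finset ℤ, ∀ η ζ : ℤ → ℕ, (∀ x ∈ Λ, η x = ζ x) → H η = H ζ

lemma Loc.eventually {β : Type*} {H : (ℤ → ℕ) → β} (hH : Loc H) {X : ℕ → ℤ → ℕ} {Y : ℤ → ℕ}
    (h : ∀ x, ∀ᶠ n in atTop, X n x = Y x) : ∀ᶠ n in atTop, H (X n) = H Y := by
  obtain ⟨Λ, hΛ⟩ := hH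
  have h1 : ∀ᶠ n in atTop, ∀ x ∈ Λ, X n x = Y x :=
    (Filter.eventually_all_finset Λ).mpr fun x _ => h x
  filter_upwards [h1] with n hn
  exact hΛ _ _ hn

variable {Ω : Type*} [MeasurableSpace Ω] {P : Measure Ω} [IsProbabilityMeasure P]

theorem limit_eq {X : ℕ → ℝ → Ω → ℤ → ℕ} {Y : ℝ → Ω → ℤ → ℕ}
    (hX : ∀ n u, 0 ≤ u → ∀ H : (ℤ → ℕ) → ℝ, Measurable fun ω => H (X n u ω))
    (hlim : ∀ u, 0 ≤ u → ∀ᵐ ω ∂P, ∀ x, ∀ᶠ n in atTop, X n u ω x = Y u ω x)
    {f G W : (ℤ → ℕ) → ℝ} {GM : ℕ → (ℤ → ℕ) → ℝ} (lf : Loc f) (lG : Loc G) (lW : Loc W)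
    (lGM : ∀ M, Loc (GM M)) {C : ℝ} (hf : ∀ η, |f η| ≤ C) (hG : ∀ η, |G η| ≤ W η)
    (hGM : ∀ M η, |G η - GM M η| ≤ (1 / 2) ^ M * W η) (hGMb : ∀ M, ∃ D, ∀ η, |GM M η| ≤ D)
    {t : ℝ} (ht : 0 ≤ t)
    (cG : ∀ n, ContinuousOn (fun u => ∫ ω, G (X n u ω) ∂P) (Set.Ici 0))
    (cW : ∀ n, ContinuousOn (fun u => ∫ ω, W (X n u ω) ∂P) (Set.Ici 0))
    (cGM : ∀ M n, ContinuousOn (fun u => ∫ ω, GM M (X n u ω) ∂P) (Set.Ici 0))
    (iW : ∀ n u, 0 ≤ u → Integrable (fun ω => W (X n u ω)) P)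
    {B : ℝ} (hB : ∀ n, ∫ u in (0 : ℝ)..t, ∫ ω, W (X n u ω) ∂P ≤ B)
    {a : ℕ → ℝ} {a' : ℝ} (ha : ∀ᶠ n in atTop, a n = a')
    (hfw : ∀ n, ∫ ω, f (X n t ω) ∂P = a n + ∫ u in (0 : ℝ)..t, ∫ ω, G (X n u ω) ∂P) :
    (∀ᵐ u ∂(volume.restrict (Set.Icc 0 t)), Integrable (fun ω => G (Y u ω)) P) ∧
    IntervalIntegrable (fun u => ∫ ω, G (Y u ω) ∂P) volume 0 t ∧
    ∫ ω, f (Y t ω) ∂P = a' + ∫ u in (0 : ℝ)..t, ∫ ω, G (Y u ω) ∂P := by
  have hW0 : ∀ η, 0 ≤ W η := fun η => (abs_nonneg _).trans (hG η)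
  have hev : ∀ (H : (ℤ → ℕ) → ℝ), Loc H → ∀ u, 0 ≤ u → ∀ᵐ ω ∂P,
      ∀ᶠ n in atTop, H (X n u ω) = H (Y u ω) := by
    intro H hH u hu
    filter_upwards [hlim u hu] with ω hω
    exact hH.eventually hω
  have hmeasY : ∀ (H : (ℤ → ℕ) → ℝ), Loc H → ∀ u, 0 ≤ u →
      AEStronglyMeasurable (fun ω => H (Y u ω)) P := by
    intro H hH u hu
    refine aestronglyMeasurable_of_tendsto_ae atTop
      (fun n => (hX n u hu H).aestronglyMeasurable) ?_
    filter_upwards [hev H hH u hu] with ω hω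
    exact tendsto_const_nhds.congr' (hω.mono fun n hn => hn.symm)
  set μ := (volume : Measure ℝ).restrict (Set.Ioc 0 t) with hμ
  have hμpos : ∀ᵐ u ∂μ, 0 ≤ u ∧ u ≤ t := by
    rw [hμ, ae_restrict_iff' measurableSet_Ioc]
    exact Eventually.of_forall fun u hu => ⟨hu.1.le, hu.2⟩
  -- the bound of the weights
  set w : ℕ → ℝ → ℝ := fun n u => ∫ ω, W (X n (max u 0) ω) ∂P with hw
  have hwc : ∀ n, Continuous (w n) := fun n =>
    (cW n).comp_continuous (continuous_id.max continuous_const)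
      fun u => Set.mem_Ici.mpr (le_max_right u 0)
  have hw0 : ∀ n u, 0 ≤ w n u := fun n u => integral_nonneg fun ω => hW0 _
  set L : ℝ → ENNReal := fun u => liminf (fun n => ENNReal.ofReal (w n u)) atTop with hL
  have hLm : Measurable L := by
    apply Measurable.liminf
    intro n
    exact (hwc n).measurable.ennreal_ofReal
  have hwμ : ∀ n, Integrable (w n) μ := fun n =>
    ((hwc n).intervalIntegrable 0 t).1
  have hLint : ∫⁻ u, L u ∂μ ≤ ENNReal.ofReal B := by
    refine (lintegral_liminf_le fun n => (hwc n).measurable.ennreal_ofReal).trans ?_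
    refine liminf_le_of_frequently_le' (Eventually.of_forall fun n => ?_).frequently
    rw [← ofReal_integral_eq_lintegral_ofReal (hwμ n) (Eventually.of_forall (hw0 n))]
    apply ENNReal.ofReal_le_ofReal
    refine le_trans (le_of_eq ?_) (hB n)
    rw [intervalIntegral.integral_of_le ht]
    refine integral_congr_ae ?_
    filter_upwards [hμpos] with u hu
    simp only [hw, max_eq_left hu.1]
  have hLfin : ∫⁻ u, L u ∂μ ≠ ⊤ := (hLint.trans_lt ENNReal.ofReal_lt_top).ne
  have hLae : ∀ᵐ u ∂μ, L u < ⊤ := ae_lt_top hLm hLfin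
  have hLI : Integrable (fun u => (L u).toReal) μ :=
    integrable_toReal_of_lintegral_ne_top hLm.aemeasurable hLfin
  have hWL : ∀ u, 0 ≤ u → ∫⁻ ω, ENNReal.ofReal (W (Y u ω)) ∂P ≤ L u := by
    intro u hu
    have h1 : ∫⁻ ω, ENNReal.ofReal (W (Y u ω)) ∂P =
        ∫⁻ ω, liminf (fun n => ENNReal.ofReal (W (X n u ω))) atTop ∂P := by
      refine lintegral_congr_ae ?_
      filter_upwards [hev W lW u hu] with ω hω
      refine (Tendsto.liminf_eq ?_).symm
      exact tendsto_const_nhds.congr' (hω.mono fun n hn => by beta_reduce; rw [hn])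
    rw [h1]
    refine (lintegral_liminf_le fun n => (hX n u hu W).ennreal_ofReal).trans ?_
    simp only [hL]
    refine le_of_eq ?_
    congr 1
    funext n
    rw [← ofReal_integral_eq_lintegral_ofReal (iW n u hu) (Eventually.of_forall fun ω => hW0 _)]
    simp only [hw, max_eq_left hu]
  have hWint : ∀ u, 0 ≤ u → L u < ⊤ → Integrable (fun ω => W (Y u ω)) P := by
    intro u hu hLu
    refine ⟨hmeasY W lW u hu, ?_⟩
    rw [hasFiniteIntegral_iff_ofReal (Eventually.of_forall fun ω => hW0 _)]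
    exact (hWL u hu).trans_lt hLu
  have hWle : ∀ u, 0 ≤ u → L u < ⊤ → ∫ ω, W (Y u ω) ∂P ≤ (L u).toReal := by
    intro u hu hLu
    rw [integral_eq_lintegral_of_nonneg_ae (Eventually.of_forall fun ω => hW0 _)
      (hmeasY W lW u hu)]
    exact ENNReal.toReal_mono hLu.ne (hWL u hu)
  have hGint : ∀ u, 0 ≤ u → L u < ⊤ → Integrable (fun ω => G (Y u ω)) P := by
    intro u hu hLu
    exact (hWint u hu hLu).mono' (hmeasY G lG u hu) (Eventually.of_forall fun ω => hG _)
  have hGMint : ∀ M u, 0 ≤ u → Integrable (fun ω => GM M (Y u ω)) P := by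
    intro M u hu
    obtain ⟨D, hD⟩ := hGMb M
    exact Integrable.of_bound (hmeasY _ (lGM M) u hu) D (Eventually.of_forall fun ω => hD _)
  -- the truncated drift
  set ψ : ℕ → ℝ → ℝ := fun M u => ∫ ω, GM M (Y (max u 0) ω) ∂P with hψ
  set φ : ℕ → ℕ → ℝ → ℝ := fun M n u => ∫ ω, GM M (X n (max u 0) ω) ∂P with hφ
  have hφc : ∀ M n, Continuous (φ M n) := fun M n =>
    (cGM M n).comp_continuous (continuous_id.max continuous_const)
      fun u => Set.mem_Ici.mpr (le_max_right u 0)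
  have hφψ : ∀ M u, Tendsto (fun n => φ M n u) atTop (𝓝 (ψ M u)) := by
    intro M u
    obtain ⟨D, hD⟩ := hGMb M
    refine tendsto_integral_of_dominated_convergence (fun _ => D)
      (fun n => (hX n _ (le_max_right u 0) _).aestronglyMeasurable) (integrable_const D)
      (fun n => Eventually.of_forall fun ω => hD _) ?_
    filter_upwards [hev _ (lGM M) _ (le_max_right u 0)] with ω hω
    exact tendsto_const_nhds.congr' (hω.mono fun n hn => hn.symm)
  have hψm : ∀ M, Measurable (ψ M) := fun M =>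
    measurable_of_tendsto_metrizable (fun n => (hφc M n).measurable)
      (tendsto_pi_nhds.mpr (hφψ M))
  have hφb : ∀ M D, (∀ η, |GM M η| ≤ D) → ∀ n u, ‖φ M n u‖ ≤ D := by
    intro M D hD n u
    have h3 := norm_integral_le_of_norm_le_const (μ := P)
      (f := fun ω => GM M (X n (max u 0) ω)) (C := D) (Eventually.of_forall fun ω => hD _)
    rwa [probReal_univ, mul_one] at h3
  have hφlim : ∀ M, Tendsto (fun n => ∫ u, φ M n u ∂μ) atTop (𝓝 (∫ u, ψ M u ∂μ)) := by
    intro M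
    obtain ⟨D, hD⟩ := hGMb M
    exact tendsto_integral_of_dominated_convergence (fun _ => D)
      (fun n => (hφc M n).aestronglyMeasurable) (integrable_const D)
      (fun n => Eventually.of_forall fun u => hφb M D hD n u)
      (Eventually.of_forall fun u => hφψ M u)
  -- the drift
  set ψ' : ℝ → ℝ := fun u => ∫ ω, G (Y u ω) ∂P with hψ'
  have hdiff : ∀ M, ∀ᵐ u ∂μ, |ψ' u - ψ M u| ≤ (1 / 2) ^ M * (L u).toReal := by
    intro M
    filter_upwards [hμpos, hLae] with u hu hLu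
    have e1 : ψ M u = ∫ ω, GM M (Y u ω) ∂P := by simp only [hψ, max_eq_left hu.1]
    rw [e1, hψ']
    beta_reduce
    rw [← integral_sub (hGint u hu.1 hLu) (hGMint M u hu.1)]
    calc |∫ ω, (G (Y u ω) - GM M (Y u ω)) ∂P| ≤ ∫ ω, |G (Y u ω) - GM M (Y u ω)| ∂P :=
          abs_integral_le_integral_abs
      _ ≤ ∫ ω, (1 / 2) ^ M * W (Y u ω) ∂P := by
          refine integral_mono ((hGint u hu.1 hLu).sub (hGMint M u hu.1)).abs
            ((hWint u hu.1 hLu).const_mul _) fun ω => hGM M _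
      _ = (1 / 2) ^ M * ∫ ω, W (Y u ω) ∂P := integral_const_mul _ _
      _ ≤ (1 / 2) ^ M * (L u).toReal := by
          have := hWle u hu.1 hLu
          gcongr
  have hψ'b : ∀ᵐ u ∂μ, ‖ψ' u‖ ≤ (L u).toReal := by
    filter_upwards [hμpos, hLae] with u hu hLu
    rw [Real.norm_eq_abs]
    calc |∫ ω, G (Y u ω) ∂P| ≤ ∫ ω, |G (Y u ω)| ∂P := abs_integral_le_integral_abs
      _ ≤ ∫ ω, W (Y u ω) ∂P :=
          integral_mono (hGint u hu.1 hLu).abs (hWint u hu.1 hLu) fun ω => hG _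
      _ ≤ _ := hWle u hu.1 hLu
  have hhalf : Tendsto (fun M : ℕ => (1 / 2 : ℝ) ^ M) atTop (𝓝 0) :=
    tendsto_pow_atTop_nhds_zero_of_lt_one (by norm_num) (by norm_num)
  have hψ'm : AEStronglyMeasurable ψ' μ := by
    refine aestronglyMeasurable_of_tendsto_ae atTop
      (fun M => (hψm M).aestronglyMeasurable) ?_
    filter_upwards [ae_all_iff.mpr hdiff] with u hu
    rw [tendsto_iff_dist_tendsto_zero]
    have h1 : Tendsto (fun M : ℕ => (1 / 2 : ℝ) ^ M * (L u).toReal) atTop (𝓝 0) := by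
      have := hhalf.mul_const (L u).toReal
      rwa [zero_mul] at this
    refine squeeze_zero (fun M => dist_nonneg) (fun M => ?_) h1
    rw [dist_comm, Real.dist_eq]
    exact hu M
  have hψ'I : Integrable ψ' μ := hLI.mono' hψ'm hψ'b
  have hψI : ∀ M, Integrable (ψ M) μ := by
    intro M
    obtain ⟨D, hD⟩ := hGMb M
    refine Integrable.of_bound (hψm M).aestronglyMeasurable D (Eventually.of_forall fun u => ?_)
    exact le_of_tendsto' (hφψ M u).norm fun n => hφb M D hD n u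
  refine ⟨?_, ?_, ?_⟩
  · have h1 : (volume : Measure ℝ).restrict (Set.Icc 0 t) = μ :=
      (Measure.restrict_congr_set Ioc_ae_eq_Icc).symm
    rw [h1]
    filter_upwards [hμpos, hLae] with u hu hLu
    exact hGint u hu.1 hLu
  · rw [intervalIntegrable_iff, Set.uIoc_of_le ht]
    exact hψ'I
  · -- convergence of the left hand sides
    have hA : Tendsto (fun n => ∫ ω, f (X n t ω) ∂P - a n) atTop
        (𝓝 (∫ ω, f (Y t ω) ∂P - a')) := by
      refine Tendsto.sub ?_ (tendsto_const_nhds.congr' (ha.mono fun n hn => hn.symm))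
      refine tendsto_integral_of_dominated_convergence (fun _ => C)
        (fun n => (hX n t ht f).aestronglyMeasurable) (integrable_const C)
        (fun n => Eventually.of_forall fun ω => hf _) ?_
      filter_upwards [hev f lf t ht] with ω hω
      exact tendsto_const_nhds.congr' (hω.mono fun n hn => hn.symm)
    have hAn : ∀ M n, |∫ ω, f (X n t ω) ∂P - a n - ∫ u, φ M n u ∂μ| ≤ (1 / 2) ^ M * B := by
      intro M n
      rw [hfw n, add_sub_cancel_left, intervalIntegral.integral_of_le ht]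
      have iG : Integrable (fun u => ∫ ω, G (X n u ω) ∂P) μ :=
        (((cG n).mono (by
          rw [Set.uIcc_of_le ht]
          exact Set.Icc_subset_Ici_self)).intervalIntegrable (a := 0) (b := t)).1
      have iφ : Integrable (φ M n) μ := ((hφc M n).intervalIntegrable 0 t).1
      rw [← integral_sub iG iφ]
      refine abs_integral_le_integral_abs.trans ?_
      calc ∫ u, |∫ ω, G (X n u ω) ∂P - φ M n u| ∂μ ≤ ∫ u, (1 / 2) ^ M * w n u ∂μ := by
            refine integral_mono_ae (iG.sub iφ).abs ((hwμ n).const_mul _) ?_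
            filter_upwards [hμpos] with u hu
            have e1 : φ M n u = ∫ ω, GM M (X n u ω) ∂P := by simp only [hφ, max_eq_left hu.1]
            have e2 : w n u = ∫ ω, W (X n u ω) ∂P := by simp only [hw, max_eq_left hu.1]
            have j1 : Integrable (fun ω => G (X n u ω)) P :=
              (iW n u hu.1).mono' (hX n u hu.1 G).aestronglyMeasurable
                (Eventually.of_forall fun ω => hG _)
            have j2 : Integrable (fun ω => GM M (X n u ω)) P := by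
              obtain ⟨D, hD⟩ := hGMb M
              exact Integrable.of_bound (hX n u hu.1 _).aestronglyMeasurable D
                (Eventually.of_forall fun ω => hD _)
            rw [e1, e2, ← integral_sub j1 j2, ← integral_const_mul]
            refine abs_integral_le_integral_abs.trans ?_
            exact integral_mono (j1.sub j2).abs ((iW n u hu.1).const_mul _) fun ω => hGM M _
        _ = (1 / 2) ^ M * ∫ u, w n u ∂μ := integral_const_mul _ _
        _ ≤ (1 / 2) ^ M * B := by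
            have h1 : ∫ u, w n u ∂μ ≤ B := by
              refine le_trans (le_of_eq ?_) (hB n)
              rw [intervalIntegral.integral_of_le ht]
              refine integral_congr_ae ?_
              filter_upwards [hμpos] with u hu
              simp only [hw, max_eq_left hu.1]
            gcongr
    have hAM : ∀ M, |∫ ω, f (Y t ω) ∂P - a' - ∫ u, ψ M u ∂μ| ≤ (1 / 2) ^ M * B := by
      intro M
      exact le_of_tendsto' (hA.sub (hφlim M)).abs (hAn M)
    have hfinal : ∀ M : ℕ, |∫ ω, f (Y t ω) ∂P - a' - ∫ u, ψ' u ∂μ| ≤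
        (1 / 2) ^ M * (B + ∫ u, (L u).toReal ∂μ) := by
      intro M
      have h1 : |∫ u, ψ M u ∂μ - ∫ u, ψ' u ∂μ| ≤ (1 / 2) ^ M * ∫ u, (L u).toReal ∂μ := by
        rw [abs_sub_comm, ← integral_sub hψ'I (hψI M), ← integral_const_mul]
        refine abs_integral_le_integral_abs.trans ?_
        exact integral_mono_ae (hψ'I.sub (hψI M)).abs (hLI.const_mul _) (hdiff M)
      have h2 := hAM M
      have h3 : ∫ ω, f (Y t ω) ∂P - a' - ∫ u, ψ' u ∂μ =
          (∫ ω, f (Y t ω) ∂P - a' - ∫ u, ψ M u ∂μ) + (∫ u, ψ M u ∂μ - ∫ u, ψ' u ∂μ) := by ring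
      rw [h3, mul_add]
      exact (abs_add_le _ _).trans (add_le_add h2 h1)
    have hzero : |∫ ω, f (Y t ω) ∂P - a' - ∫ u, ψ' u ∂μ| ≤ 0 := by
      have h1 := hhalf.mul_const (B + ∫ u, (L u).toReal ∂μ)
      rw [zero_mul] at h1
      exact ge_of_tendsto' h1 hfinal
    have h4 := abs_nonpos_iff.mp hzero
    rw [intervalIntegral.integral_of_le ht]
    linarith

end Pool.Agent.Lib.MP_68fe73_pr
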