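import Pool.Agent.Lib.MP_68fe73_pr.Bound
import Pool.Agent.Lib.MP_68fe73_pr.Limit

/-!
The generator on local functions, its truncations, and the initial bound of the Lyapunov function.
-/

namespace Pool.Agent.Lib.MP_68fe73_pr

open MeasureTheory ProbabilityTheory Filter Topology

lemma moved_apply {η : ℤ → ℕ} {x y : ℤ} (hx : 1 ≤ η x) (w : ℤ) :
    moved η x y w = if w = y then η y + 1 else if w = x then η x - 1 else η w := by
  unfold moved
  rw [if_pos hx]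
  rcases eq_or_ne w y with rfl | h1
  · simp
  · rw [Function.update_of_ne h1, if_neg h1]
    rcases eq_or_ne w x with rfl | h2
    · simp
    · rw [Function.update_of_ne h2, if_neg h2]

lemma moved_coe {ζ : ℤ →₀ ℕ} {x y : ℤ} (hx : 1 ≤ ζ x) (hxy : y ≠ x) :
    moved ⇑ζ x y = ⇑(move ζ x y) := by
  funext w
  rw [moved_apply hx]
  unfold move
  rw [Finsupp.add_apply, Finsupp.tsub_apply]
  rcases eq_or_ne w y with rfl | h1
  · simp [Finsupp.single_eq_of_ne hxy]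
  · rcases eq_or_ne w x with rfl | h2
    · simp [h1, Finsupp.single_eq_of_ne h1]
    · simp [h1, h2, Finsupp.single_eq_of_ne h1, Finsupp.single_eq_of_ne h2]

/-- The contribution of the site `x` to the generator, with an arbitrary rate `r`. -/
noncomputable def term (r : ℝ) (f : (ℤ → ℕ) → ℝ) (η : ℤ → ℕ) (x : ℤ) : ℝ :=
  r * (1 / 2) * (f (moved η x (x + 1)) - f η) + r * (1 / 2) * (f (moved η x (x - 1)) - f η)

lemma gen_eq_tsum (g : ℕ → ℝ) (f : (ℤ → ℕ) → ℝ) (η : ℤ → ℕ) :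
    gen g f η = ∑' x, term (g (η x)) f η x := rfl

lemma gen_coe {g : ℕ → ℝ} (hg : g 0 = 0) (f : (ℤ → ℕ) → ℝ) (ζ : ℤ →₀ ℕ) :
    gen g f ⇑ζ = genF g (fun ξ => f ⇑ξ) ζ := by
  rw [gen_eq_tsum, tsum_eq_sum (s := ζ.support)]
  · unfold genF
    refine Finset.sum_congr rfl fun x hx => ?_
    have hx1 : 1 ≤ ζ x := Nat.one_le_iff_ne_zero.mpr (Finsupp.mem_support_iff.mp hx)
    unfold term
    rw [moved_coe hx1 (by omega), moved_coe hx1 (by omega)]
  · intro x hx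
    rw [Finsupp.notMem_support_iff.mp hx, hg, term]
    ring

/-- The sites from which a jump may change a function of the configuration in `Λ`. -/
def sites (Λ : Finset ℤ) : Finset ℤ := Λ ∪ Λ.image (· + 1) ∪ Λ.image (· - 1)

lemma moved_congr_off {Λ : Finset ℤ} {x : ℤ} (hx : x ∉ sites Λ) (η : ℤ → ℕ) {y : ℤ}
    (hy : y = x + 1 ∨ y = x - 1) : ∀ w ∈ Λ, moved η x y w = η w := by
  intro w hw
  have h1 : w ≠ x := by
    rintro rfl
    exact hx (by simp [sites, hw])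
  have h2 : w ≠ y := by
    rintro rfl
    apply hx
    rcases hy with rfl | rfl
    · simp only [sites, Finset.mem_union, Finset.mem_image]
      exact Or.inr ⟨x + 1, hw, by ring⟩
    · simp only [sites, Finset.mem_union, Finset.mem_image]
      exact Or.inl (Or.inr ⟨x - 1, hw, by ring⟩)
  by_cases h : 1 ≤ η x
  · rw [moved_apply h, if_neg h2, if_neg h1]
  · unfold moved
    rw [if_neg h]

lemma gen_eq_sum (g : ℕ → ℝ) {f : (ℤ → ℕ) → ℝ} {Λ : Finset ℤ}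
    (hΛ : ∀ η ζ : ℤ → ℕ, (∀ x ∈ Λ, η x = ζ x) → f η = f ζ) (η : ℤ → ℕ) :
    gen g f η = ∑ x ∈ sites Λ, term (g (η x)) f η x := by
  rw [gen_eq_tsum, tsum_eq_sum (s := sites Λ)]
  intro x hx
  unfold term
  rw [hΛ _ _ (moved_congr_off hx η (Or.inl rfl)), hΛ _ _ (moved_congr_off hx η (Or.inr rfl))]
  ring

lemma moved_congr {Λ : Finset ℤ} {x y : ℤ} {η ζ : ℤ → ℕ} (hx : η x = ζ x)
    (h : ∀ w ∈ Λ, η w = ζ w) : ∀ w ∈ Λ, moved η x y w = moved ζ x y w := by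
  intro w hw
  by_cases h1 : 1 ≤ η x
  · rw [moved_apply h1, moved_apply (hx ▸ h1)]
    rcases eq_or_ne w y with rfl | h2
    · rw [if_pos rfl, if_pos rfl, h w hw]
    · rw [if_neg h2, if_neg h2, hx, h w hw]
  · unfold moved
    rw [if_neg h1, if_neg (hx ▸ h1), h w hw]

lemma term_congr {r : ℝ} {f : (ℤ → ℕ) → ℝ} {Λ : Finset ℤ}
    (hΛ : ∀ η ζ : ℤ → ℕ, (∀ x ∈ Λ, η x = ζ x) → f η = f ζ) {x : ℤ} {η ζ : ℤ → ℕ}
    (hx : η x = ζ x) (h : ∀ w ∈ Λ, η w = ζ w) : term r f η x = term r f ζ x := by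
  unfold term
  rw [hΛ _ _ (moved_congr hx h), hΛ _ _ (moved_congr (y := x - 1) hx h), hΛ η ζ h]

lemma loc_sum (ρ : ℕ → ℝ) {f : (ℤ → ℕ) → ℝ} {Λ : Finset ℤ}
    (hΛ : ∀ η ζ : ℤ → ℕ, (∀ x ∈ Λ, η x = ζ x) → f η = f ζ) :
    Loc (fun η => ∑ x ∈ sites Λ, term (ρ (η x)) f η x) := by
  refine ⟨sites Λ, fun η ζ h => ?_⟩
  have h1 : ∀ w ∈ Λ, η w = ζ w := fun w hw => h w (by simp [sites, hw])
  refine Finset.sum_congr rfl fun x hx => ?_
  rw [h x hx]
  exact term_congr hΛ (h x hx) h1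

lemma abs_term_le {r C : ℝ} (hr : 0 ≤ r) {f : (ℤ → ℕ) → ℝ} (hC : ∀ η, |f η| ≤ C) (η : ℤ → ℕ)
    (x : ℤ) : |term r f η x| ≤ 2 * C * r := by
  unfold term
  have h1 := hC (moved η x (x + 1))
  have h2 := hC (moved η x (x - 1))
  have h3 := hC η
  rw [abs_le] at h1 h2 h3 ⊢
  constructor <;> nlinarith

/-- The weight of a local function. -/
noncomputable def Wt (g : ℕ → ℝ) (C : ℝ) (Λ : Finset ℤ) (η : ℤ → ℕ) : ℝ :=
  ∑ x ∈ sites Λ, 2 * C * wt g (η x)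

lemma wt_nonneg {g : ℕ → ℝ} (h0 : ∀ j, 0 ≤ g j) (k : ℕ) : 0 ≤ wt g k :=
  mul_nonneg (h0 k) (by positivity)

lemma abs_gen_le {g : ℕ → ℝ} (h0 : ∀ j, 0 ≤ g j) {f : (ℤ → ℕ) → ℝ} {Λ : Finset ℤ} {C : ℝ}
    (hC : ∀ η, |f η| ≤ C) (η : ℤ → ℕ) :
    |∑ x ∈ sites Λ, term (g (η x)) f η x| ≤ Wt g C Λ η := by
  have hC0 : 0 ≤ C := (abs_nonneg _).trans (hC 0)
  refine (Finset.abs_sum_le_sum_abs _ _).trans (Finset.sum_le_sum fun x _ => ?_)
  refine (abs_term_le (h0 _) hC η x).trans ?_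
  have h1 : g (η x) ≤ wt g (η x) := by
    unfold wt
    exact le_mul_of_one_le_right (h0 _) (one_le_pow₀ (by norm_num))
  gcongr

lemma abs_gen_sub_le {g : ℕ → ℝ} (h0 : ∀ j, 0 ≤ g j) (hm : Monotone g) {f : (ℤ → ℕ) → ℝ}
    {Λ : Finset ℤ} {C : ℝ} (hC : ∀ η, |f η| ≤ C) (M : ℕ) (η : ℤ → ℕ) :
    |∑ x ∈ sites Λ, term (g (η x)) f η x - ∑ x ∈ sites Λ, term (g (min (η x) M)) f η x| ≤
      (1 / 2) ^ M * Wt g C Λ η := by
  have hC0 : 0 ≤ C := (abs_nonneg _).trans (hC 0)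
  rw [← Finset.sum_sub_distrib, Wt, Finset.mul_sum]
  refine (Finset.abs_sum_le_sum_abs _ _).trans (Finset.sum_le_sum fun x _ => ?_)
  have h1 : term (g (η x)) f η x - term (g (min (η x) M)) f η x =
      term (g (η x) - g (min (η x) M)) f η x := by
    unfold term
    ring
  have h2 : 0 ≤ g (η x) - g (min (η x) M) := sub_nonneg.mpr (hm (min_le_left _ _))
  rw [h1]
  refine (abs_term_le h2 hC η x).trans ?_
  have h3 : g (η x) - g (min (η x) M) ≤ (1 / 2) ^ M * wt g (η x) := by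
    rcases le_total (η x) M with h | h
    · rw [min_eq_left h, sub_self]
      have := wt_nonneg h0 (η x)
      positivity
    · have h4 := h0 (min (η x) M)
      have h5 : (1 : ℝ) ≤ (1 / 2) ^ M * 2 ^ (η x) := by
        rw [one_div, inv_pow, ← div_eq_inv_mul, le_div_iff₀ (by positivity), one_mul]
        exact pow_le_pow_right₀ (by norm_num) h
      calc g (η x) - g (min (η x) M) ≤ g (η x) * 1 := by linarith
        _ ≤ g (η x) * ((1 / 2) ^ M * 2 ^ (η x)) := mul_le_mul_of_nonneg_left h5 (h0 _)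
        _ = (1 / 2) ^ M * wt g (η x) := by
            unfold wt
            ring
  calc 2 * C * (g (η x) - g (min (η x) M)) ≤ 2 * C * ((1 / 2) ^ M * wt g (η x)) := by gcongr
    _ = (1 / 2) ^ M * (2 * C * wt g (η x)) := by ring

lemma abs_genM_le {g : ℕ → ℝ} (h0 : ∀ j, 0 ≤ g j) (hm : Monotone g) {f : (ℤ → ℕ) → ℝ}
    {Λ : Finset ℤ} {C : ℝ} (hC : ∀ η, |f η| ≤ C) (M : ℕ) (η : ℤ → ℕ) :
    |∑ x ∈ sites Λ, term (g (min (η x) M)) f η x| ≤ (sites Λ).card * (2 * C * g M) := by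
  have hC0 : 0 ≤ C := (abs_nonneg _).trans (hC 0)
  refine (Finset.abs_sum_le_sum_abs _ _).trans ?_
  rw [← nsmul_eq_mul]
  refine Finset.sum_le_card_nsmul _ _ _ fun x _ => ?_
  refine (abs_term_le (h0 _) hC η x).trans ?_
  have : g (min (η x) M) ≤ g M := hm (min_le_right _ _)
  gcongr

/-- The initial configurations have linearly bounded numbers of particles. -/
lemma exists_bound_of_mem_Y {η₀ : ℤ → ℕ} (h : η₀ ∈ Y) :
    ∃ K : ℕ, ∀ n : ℕ, ∑ x ∈ Finset.Icc (-(n : ℤ)) n, η₀ x ≤ K * (2 * n + 1) := by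
  have h' : limsup (fun n : ℕ => (∑ x ∈ Finset.Icc (-(n : ℤ)) n, (η₀ x : ENNReal)) /
    (2 * n + 1)) atTop < ⊤ := h
  obtain ⟨K, hK⟩ := ENNReal.exists_nat_gt h'.ne
  obtain ⟨N, hN⟩ := eventually_atTop.mp (eventually_lt_of_limsup_lt hK)
  refine ⟨max K (∑ x ∈ Finset.Icc (-(N : ℤ)) N, η₀ x), fun n => ?_⟩
  rcases le_total N n with hn | hn
  · have h1 := (hN n hn).le
    have h2 : (∑ x ∈ Finset.Icc (-(n : ℤ)) n, (η₀ x : ENNReal)) ≤ K * (2 * n + 1) := by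
      rwa [ENNReal.div_le_iff (by positivity) (by finiteness)] at h1
    have h3 : ((∑ x ∈ Finset.Icc (-(n : ℤ)) n, η₀ x : ℕ) : ENNReal) ≤
        ((K * (2 * n + 1) : ℕ) : ENNReal) := by
      push_cast
      exact h2
    have h4 : ∑ x ∈ Finset.Icc (-(n : ℤ)) n, η₀ x ≤ K * (2 * n + 1) := by exact_mod_cast h3
    exact h4.trans (Nat.mul_le_mul_right _ (le_max_left _ _))
  · have h1 : ∑ x ∈ Finset.Icc (-(n : ℤ)) n, η₀ x ≤ ∑ x ∈ Finset.Icc (-(N : ℤ)) N, η₀ x := by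
      refine Finset.sum_le_sum_of_subset (Finset.Icc_subset_Icc ?_ ?_)
      · have : (n : ℤ) ≤ N := by exact_mod_cast hn
        omega
      · exact_mod_cast hn
    calc ∑ x ∈ Finset.Icc (-(n : ℤ)) n, η₀ x ≤
        (∑ x ∈ Finset.Icc (-(N : ℤ)) N, η₀ x) * 1 := by rw [mul_one]; exact h1
      _ ≤ _ := Nat.mul_le_mul (le_max_right _ _) (by omega)

lemma cut_apply (η₀ : ℤ → ℕ) (n : ℕ) (x : ℤ) :
    cut η₀ n x = if x ∈ Finset.Icc (-(n : ℤ)) n then η₀ x else 0 := rfl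

lemma cut_le (η₀ : ℤ → ℕ) (n : ℕ) (x : ℤ) : cut η₀ n x ≤ η₀ x := by
  rw [cut_apply]
  split_ifs
  · exact le_rfl
  · exact Nat.zero_le _

lemma eventually_cut (η₀ : ℤ → ℕ) (x : ℤ) : ∀ᶠ n : ℕ in atTop, cut η₀ n x = η₀ x := by
  filter_upwards [eventually_ge_atTop x.natAbs] with n hn
  rw [cut_apply, if_pos]
  rw [Finset.mem_Icc]
  omega

/-- The initial bound of the Lyapunov function. -/
lemma V_cut_le {η₀ : ℤ → ℕ} {K : ℕ}
    (hK : ∀ n : ℕ, ∑ x ∈ Finset.Icc (-(n : ℤ)) n, η₀ x ≤ K * (2 * n + 1)) (z : ℤ) (n m : ℕ) :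
    V z (2 * K + 1) m (cut η₀ n) ≤ 4 * 2 ^ (K * (2 * z.natAbs + 1)) := by
  have hE : ∀ a b : ℕ, E z (2 * K + 1) a b (cut η₀ n) ≤
      2 ^ (K * (2 * z.natAbs + 1)) * ((1 / 2) ^ a * (1 / 2) ^ b) := by
    intro a b
    have h1 : S (z - a) (z + b) (cut η₀ n) ≤ K * (2 * (z.natAbs + a + b : ℕ) + 1) := by
      refine le_trans ?_ (hK (z.natAbs + a + b))
      unfold S
      refine (Finset.sum_le_sum fun x _ => cut_le η₀ n x).trans ?_
      refine Finset.sum_le_sum_of_subset (Finset.Icc_subset_Icc ?_ ?_)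
      · omega
      · omega
    unfold E
    rw [one_div, inv_pow, inv_pow, ← mul_inv, ← pow_add, ← div_eq_mul_inv,
      div_le_div_iff₀ (by positivity) (by positivity), ← pow_add, ← pow_add]
    apply pow_le_pow_right₀ (by norm_num)

    nlinarith
  calc V z (2 * K + 1) m (cut η₀ n) ≤ ∑ a ∈ Finset.range (m + 1), ∑ b ∈ Finset.range (m + 1),
        (2 : ℝ) ^ (K * (2 * z.natAbs + 1)) * ((1 / 2) ^ a * (1 / 2) ^ b) :=
        Finset.sum_le_sum fun a _ => Finset.sum_le_sum fun b _ => hE a b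
    _ = 2 ^ (K * (2 * z.natAbs + 1)) * ((∑ a ∈ Finset.range (m + 1), (1 / 2 : ℝ) ^ a) *
        ∑ b ∈ Finset.range (m + 1), (1 / 2 : ℝ) ^ b) := by
        rw [Finset.sum_mul_sum, Finset.mul_sum]
        refine Finset.sum_congr rfl fun a _ => ?_
        rw [Finset.mul_sum]
    _ ≤ 2 ^ (K * (2 * z.natAbs + 1)) * (2 * 2) := by
        have h1 := sum_geometric_two_le (m + 1)
        have h2 : 0 ≤ ∑ a ∈ Finset.range (m + 1), (1 / 2 : ℝ) ^ a :=
          Finset.sum_nonneg fun _ _ => by positivity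
        gcongr
    _ = _ := by ring

end Pool.Agent.Lib.MP_68fe73_pr
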