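import Pool.Agent.Lib.MP_68fe73_pr.Defs

/-!
The Lyapunov function: the sum over the intervals `I` containing a site `z` of
`2 ^ (number of particles in I - c |I|)`.
-/

namespace Pool.Agent.Lib.MP_68fe73_pr

open Finset

/-- The generator on functions of finite configurations. -/
noncomputable def genF (g : ℕ → ℝ) (F : (ℤ →₀ ℕ) → ℝ) (ζ : ℤ →₀ ℕ) : ℝ :=
  ∑ x ∈ ζ.support, (g (ζ x) * (1 / 2) * (F (move ζ x (x + 1)) - F ζ) +
    g (ζ x) * (1 / 2) * (F (move ζ x (x - 1)) - F ζ))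

lemma sub_add_single {ζ : ℤ →₀ ℕ} {x : ℤ} (hx : 1 ≤ ζ x) :
    ζ - Finsupp.single x 1 + Finsupp.single x 1 = ζ := by
  ext w
  rw [Finsupp.add_apply, Finsupp.tsub_apply]
  rcases eq_or_ne w x with rfl | h
  · simp only [Finsupp.single_eq_same]
    omega
  · simp [Finsupp.single_eq_of_ne h]

/-- Number of particles in an interval. -/
noncomputable def S (l r : ℤ) (ζ : ℤ →₀ ℕ) : ℕ := ∑ x ∈ Icc l r, ζ x

lemma S_add (l r : ℤ) (ζ ξ : ℤ →₀ ℕ) : S l r (ζ + ξ) = S l r ζ + S l r ξ := by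
  unfold S
  rw [← sum_add_distrib]
  rfl

lemma S_single (l r x : ℤ) : S l r (Finsupp.single x 1) = if x ∈ Icc l r then 1 else 0 := by
  unfold S
  simp only [Finsupp.single_apply]
  rw [sum_ite_eq]

lemma S_le (l r : ℤ) (ζ : ℤ →₀ ℕ) : S l r ζ ≤ ζ.degree := by
  unfold S
  calc ∑ x ∈ Icc l r, ζ x = ∑ x ∈ (Icc l r).filter (fun x => ζ x ≠ 0), ζ x := by
        rw [sum_filter_ne_zero]
    _ ≤ ∑ x ∈ ζ.support, ζ x := by
        apply sum_le_sum_of_subset
        intro x hx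
        rw [mem_filter] at hx
        exact Finsupp.mem_support_iff.mpr hx.2
    _ = ζ.degree := rfl

lemma pow_S_move {ζ : ℤ →₀ ℕ} {x : ℤ} (hx : 1 ≤ ζ x) (y l r : ℤ) :
    (2 : ℝ) ^ S l r (move ζ x y) - 2 ^ S l r ζ = 2 ^ S l r ζ *
      ((if y ∈ Icc l r then 2 else 1) / (if x ∈ Icc l r then 2 else 1) - 1) := by
  have h1 : S l r ζ = S l r (ζ - Finsupp.single x 1) + if x ∈ Icc l r then 1 else 0 := by
    conv_lhs => rw [← sub_add_single hx]
    rw [S_add, S_single]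
  rw [h1, move, S_add, S_single]
  by_cases hxI : x ∈ Icc l r <;> by_cases hyI : y ∈ Icc l r <;>
    simp only [hxI, hyI, if_true, if_false] <;> ring

lemma sum_support_ite {g : ℕ → ℝ} (hg : g 0 = 0) (ζ : ℤ →₀ ℕ) (w : ℤ) (k : ℝ) :
    ∑ x ∈ ζ.support, g (ζ x) * (if x = w then k else 0) = g (ζ w) * k := by
  simp only [mul_ite, mul_zero]
  rw [sum_ite_eq']
  split_ifs with h
  · rfl
  · rw [Finsupp.notMem_support_iff.mp h, hg, zero_mul]

lemma genF_pow_S {g : ℕ → ℝ} (hg : g 0 = 0) {l r : ℤ} (hlr : l ≤ r) (ζ : ℤ →₀ ℕ) :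
    genF g (fun ζ => 2 ^ S l r ζ) ζ = 2 ^ S l r ζ *
      (1 / 2 * (g (ζ (l - 1)) + g (ζ (r + 1))) - 1 / 4 * (g (ζ l) + g (ζ r))) := by
  have h1 : ∀ x ∈ ζ.support, (g (ζ x) * (1 / 2) * ((2 : ℝ) ^ S l r (move ζ x (x + 1)) -
      2 ^ S l r ζ) + g (ζ x) * (1 / 2) * ((2 : ℝ) ^ S l r (move ζ x (x - 1)) - 2 ^ S l r ζ)) =
      2 ^ S l r ζ * (g (ζ x) * (if x = l - 1 then 1 / 2 else 0) +
        g (ζ x) * (if x = r + 1 then 1 / 2 else 0) +
        g (ζ x) * (if x = l then - (1 / 4) else 0) +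
        g (ζ x) * (if x = r then - (1 / 4) else 0)) := by
    intro x hx
    have hx1 : 1 ≤ ζ x := Nat.one_le_iff_ne_zero.mpr (Finsupp.mem_support_iff.mp hx)
    rw [pow_S_move hx1, pow_S_move hx1]
    simp only [mem_Icc]
    by_cases h1 : x = l - 1
    · subst h1
      have e1 : (l ≤ l - 1 + 1 ∧ l - 1 + 1 ≤ r) := by omega
      have e2 : ¬ (l ≤ l - 1 ∧ l - 1 ≤ r) := by omega
      have e3 : ¬ (l ≤ l - 1 - 1 ∧ l - 1 - 1 ≤ r) := by omega
      have e4 : ¬ (l - 1 = r + 1) := by omega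
      have e5 : ¬ (l - 1 = l) := by omega
      have e6 : ¬ (l - 1 = r) := by omega
      simp only [e1, e2, e3, e4, e5, e6, and_self, if_true, if_false]
      ring
    by_cases h2 : x = r + 1
    · subst h2
      have e1 : ¬ (l ≤ r + 1 + 1 ∧ r + 1 + 1 ≤ r) := by omega
      have e2 : ¬ (l ≤ r + 1 ∧ r + 1 ≤ r) := by omega
      have e3 : (l ≤ r + 1 - 1 ∧ r + 1 - 1 ≤ r) := by omega
      have e5 : ¬ (r + 1 = l) := by omega
      have e6 : ¬ (r + 1 = r) := by omega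
      simp only [e1, e2, e3, h1, e5, e6, and_self, if_true, if_false]
      ring
    by_cases h3 : x = l
    · subst h3
      by_cases h4 : x = r
      · subst h4
        have e1 : ¬ (x ≤ x + 1 ∧ x + 1 ≤ x) := by omega
        have e2 : (x ≤ x ∧ x ≤ x) := by omega
        have e3 : ¬ (x ≤ x - 1 ∧ x - 1 ≤ x) := by omega
        simp only [e1, e2, e3, h1, h2, and_self, if_true, if_false]
        ring
      · have e1 : (x ≤ x + 1 ∧ x + 1 ≤ r) := by omega
        have e2 : (x ≤ x ∧ x ≤ r) := by omega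
        have e3 : ¬ (x ≤ x - 1 ∧ x - 1 ≤ r) := by omega
        simp only [e1, e2, e3, h1, h2, h4, and_self, if_true, if_false]
        ring
    by_cases h4 : x = r
    · subst h4
      have e1 : ¬ (l ≤ x + 1 ∧ x + 1 ≤ x) := by omega
      have e2 : (l ≤ x ∧ x ≤ x) := by omega
      have e3 : (l ≤ x - 1 ∧ x - 1 ≤ x) := by omega
      simp only [e1, e2, e3, h1, h2, h3, and_self, if_true, if_false]
      ring
    · by_cases h5 : l ≤ x ∧ x ≤ r
      · have e1 : (l ≤ x + 1 ∧ x + 1 ≤ r) := by omega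
        have e3 : (l ≤ x - 1 ∧ x - 1 ≤ r) := by omega
        simp only [e1, e3, h1, h2, h3, h4, h5, and_self, if_true, if_false]
        ring
      · have e1 : ¬ (l ≤ x + 1 ∧ x + 1 ≤ r) := by omega
        have e3 : ¬ (l ≤ x - 1 ∧ x - 1 ≤ r) := by omega
        simp only [e1, e3, h1, h2, h3, h4, h5, if_false]
        ring
  unfold genF
  rw [sum_congr rfl h1, ← mul_sum, sum_add_distrib, sum_add_distrib, sum_add_distrib,
    sum_support_ite hg, sum_support_ite hg, sum_support_ite hg, sum_support_ite hg]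
  ring

/-- The summand of the Lyapunov function for the interval `[z - a, z + b]`. -/
noncomputable def E (z : ℤ) (c a b : ℕ) (ζ : ℤ →₀ ℕ) : ℝ :=
  2 ^ S (z - a) (z + b) ζ / 2 ^ (c * (a + b + 1))

lemma E_pos (z : ℤ) (c a b : ℕ) (ζ : ℤ →₀ ℕ) : 0 < E z c a b ζ := by
  unfold E
  positivity

lemma E_succ_left (z : ℤ) (c a b : ℕ) (ζ : ℤ →₀ ℕ) :
    E z c (a + 1) b ζ = E z c a b ζ * (2 ^ ζ (z - a - 1) / 2 ^ c) := by
  have h : S (z - (a + 1 : ℕ)) (z + b) ζ = S (z - a) (z + b) ζ + ζ (z - a - 1) := by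
    unfold S
    have h1 : Icc (z - ((a + 1 : ℕ) : ℤ)) (z + b) =
        insert (z - a - 1) (Icc (z - (a : ℤ)) (z + b)) := by
      ext x
      simp only [mem_Icc, mem_insert]
      push_cast
      omega
    rw [h1, sum_insert (by simp), add_comm]
  unfold E
  rw [h, pow_add, show c * (a + 1 + b + 1) = c * (a + b + 1) + c by ring, pow_add]
  field_simp

lemma E_succ_right (z : ℤ) (c a b : ℕ) (ζ : ℤ →₀ ℕ) :
    E z c a (b + 1) ζ = E z c a b ζ * (2 ^ ζ (z + b + 1) / 2 ^ c) := by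
  have h : S (z - a) (z + (b + 1 : ℕ)) ζ = S (z - a) (z + b) ζ + ζ (z + b + 1) := by
    unfold S
    have h1 : Icc (z - (a : ℤ)) (z + ((b + 1 : ℕ) : ℤ)) =
        insert (z + b + 1) (Icc (z - (a : ℤ)) (z + b)) := by
      ext x
      simp only [mem_Icc, mem_insert]
      push_cast
      omega
    rw [h1, sum_insert (by simp), add_comm]
  unfold E
  rw [h, pow_add, show c * (a + (b + 1) + 1) = c * (a + b + 1) + c by ring, pow_add]
  field_simp

lemma genF_E {g : ℕ → ℝ} (hg : g 0 = 0) (z : ℤ) (c a b : ℕ) (ζ : ℤ →₀ ℕ) :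
    genF g (E z c a b) ζ = E z c a b ζ *
      (1 / 2 * (g (ζ (z - a - 1)) + g (ζ (z + b + 1))) -
        1 / 4 * (g (ζ (z - a)) + g (ζ (z + b)))) := by
  have h1 := genF_pow_S hg (l := z - a) (r := z + b) (by omega) ζ
  have h2 : genF g (E z c a b) ζ =
      genF g (fun ζ => 2 ^ S (z - a) (z + b) ζ) ζ * (1 / 2 ^ (c * (a + b + 1))) := by
    unfold genF E
    rw [sum_mul]
    refine sum_congr rfl fun x _ => ?_
    ring
  rw [h2, h1, E]
  ring

/-- The key inequality for one site. -/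
lemma pair_le {g : ℕ → ℝ} (hg : g 0 = 0) (hm : Monotone g) (c h : ℕ) :
    1 / 2 * g h - 1 / 4 * g h * (2 ^ h / 2 ^ c) ≤ g (c + 1) - g h * 2 ^ h / 2 ^ (c + 3) := by
  have h0 : ∀ k, 0 ≤ g k := fun k => hg ▸ hm (Nat.zero_le k)
  have hc : (0 : ℝ) < 2 ^ c := by positivity
  have e3 : (2 : ℝ) ^ (c + 3) = 8 * 2 ^ c := by rw [pow_add]; norm_num; ring
  rw [e3]
  rcases Nat.lt_or_ge (c + 1) h with hh | hh
  · have h2 : (4 : ℝ) * 2 ^ c ≤ 2 ^ h := by
      calc (4 : ℝ) * 2 ^ c = 2 ^ (c + 2) := by rw [pow_add]; norm_num; ring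
        _ ≤ 2 ^ h := pow_le_pow_right₀ (by norm_num) (by omega)
    have h3 : (1 : ℝ) / 2 - 1 / 4 * (2 ^ h / 2 ^ c) + 2 ^ h / (8 * 2 ^ c) ≤ 0 := by
      have h4 : (4 : ℝ) ≤ 2 ^ h / 2 ^ c := by
        rw [le_div_iff₀ hc]
        exact h2
      have h5 : (2 : ℝ) ^ h / (8 * 2 ^ c) = 1 / 8 * (2 ^ h / 2 ^ c) := by
        field_simp
      rw [h5]
      linarith
    have h6 := mul_le_mul_of_nonneg_left h3 (h0 h)
    have h7 := h0 (c + 1)
    have h8 : g h * (1 / 2 - 1 / 4 * (2 ^ h / 2 ^ c) + 2 ^ h / (8 * 2 ^ c)) =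
      1 / 2 * g h - 1 / 4 * g h * (2 ^ h / 2 ^ c) + g h * 2 ^ h / (8 * 2 ^ c) := by ring
    rw [h8, mul_zero] at h6
    linarith
  · have h1 : g h ≤ g (c + 1) := hm hh
    have h2 : (2 : ℝ) ^ h ≤ 2 * 2 ^ c := by
      calc (2 : ℝ) ^ h ≤ 2 ^ (c + 1) := pow_le_pow_right₀ (by norm_num) hh
        _ = 2 * 2 ^ c := by rw [pow_succ]; ring
    have h3 : g h * 2 ^ h / (8 * 2 ^ c) ≤ g (c + 1) / 4 := by
      rw [div_le_div_iff₀ (by positivity) (by norm_num)]
      calc g h * 2 ^ h * 4 ≤ g (c + 1) * (2 * 2 ^ c) * 4 := by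
            gcongr
            exact h0 (c + 1)
        _ = g (c + 1) * (8 * 2 ^ c) := by ring
    have h4 : 0 ≤ 1 / 4 * g h * (2 ^ h / 2 ^ c) := by
      have := h0 h
      positivity
    have := h0 (c + 1)
    linarith

/-- The Lyapunov function, restricted to the intervals `[z - a, z + b]` with `a, b ≤ m`. -/
noncomputable def V (z : ℤ) (c m : ℕ) (ζ : ℤ →₀ ℕ) : ℝ :=
  ∑ a ∈ range (m + 1), ∑ b ∈ range (m + 1), E z c a b ζ

lemma genF_sum {ι : Type*} (g : ℕ → ℝ) (s : Finset ι) (F : ι → (ℤ →₀ ℕ) → ℝ) (ζ : ℤ →₀ ℕ) :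
    genF g (fun ζ => ∑ i ∈ s, F i ζ) ζ = ∑ i ∈ s, genF g (F i) ζ := by
  unfold genF
  rw [sum_comm]
  refine sum_congr rfl fun x _ => ?_
  rw [sum_add_distrib, ← mul_sum, ← mul_sum, sum_sub_distrib, sum_sub_distrib]

lemma left_le {g : ℕ → ℝ} (hg : g 0 = 0) (hm : Monotone g) (z : ℤ) (c b m : ℕ)
    (ζ : ℤ →₀ ℕ) :
    ∑ a ∈ range (m + 1), E z c a b ζ * (1 / 2 * g (ζ (z - a - 1)) - 1 / 4 * g (ζ (z - a))) ≤
      ∑ a ∈ range m, E z c a b ζ * (g (c + 1) - g (ζ (z - a - 1)) * 2 ^ ζ (z - a - 1) /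
        2 ^ (c + 3)) + 1 / 2 * g (ζ (z - m - 1)) * E z c m b ζ := by
  have h0 : ∀ k, 0 ≤ g k := fun k => hg ▸ hm (Nat.zero_le k)
  have h1 : ∑ a ∈ range (m + 1), E z c a b ζ *
      (1 / 2 * g (ζ (z - a - 1)) - 1 / 4 * g (ζ (z - a))) =
      (∑ a ∈ range m, E z c a b ζ * (1 / 2 * g (ζ (z - a - 1))) +
        E z c m b ζ * (1 / 2 * g (ζ (z - m - 1)))) -
      (∑ a ∈ range m, E z c (a + 1) b ζ * (1 / 4 * g (ζ (z - a - 1))) +
        E z c 0 b ζ * (1 / 4 * g (ζ z))) := by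
    simp_rw [mul_sub]
    rw [sum_sub_distrib, sum_range_succ, sum_range_succ' (fun a => E z c a b ζ *
      (1 / 4 * g (ζ (z - a))))]
    congr 2
    · refine sum_congr rfl fun a _ => ?_
      congr 4
      push_cast
      ring
    · simp
  rw [h1]
  have h2 : 0 ≤ E z c 0 b ζ * (1 / 4 * g (ζ z)) :=
    mul_nonneg (E_pos _ _ _ _ _).le (mul_nonneg (by norm_num) (h0 _))
  have h3 : ∑ a ∈ range m, E z c a b ζ * (1 / 2 * g (ζ (z - a - 1))) -
      ∑ a ∈ range m, E z c (a + 1) b ζ * (1 / 4 * g (ζ (z - a - 1))) ≤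
      ∑ a ∈ range m, E z c a b ζ * (g (c + 1) - g (ζ (z - a - 1)) * 2 ^ ζ (z - a - 1) /
        2 ^ (c + 3)) := by
    rw [← sum_sub_distrib]
    refine sum_le_sum fun a _ => ?_
    rw [E_succ_left]
    have := mul_le_mul_of_nonneg_left (pair_le hg hm c (ζ (z - a - 1)))
      (E_pos z c a b ζ).le
    refine le_trans (le_of_eq ?_) this
    ring
  linarith

lemma right_le {g : ℕ → ℝ} (hg : g 0 = 0) (hm : Monotone g) (z : ℤ) (c a m : ℕ)
    (ζ : ℤ →₀ ℕ) :
    ∑ b ∈ range (m + 1), E z c a b ζ * (1 / 2 * g (ζ (z + b + 1)) - 1 / 4 * g (ζ (z + b))) ≤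
      ∑ b ∈ range m, E z c a b ζ * (g (c + 1) - g (ζ (z + b + 1)) * 2 ^ ζ (z + b + 1) /
        2 ^ (c + 3)) + 1 / 2 * g (ζ (z + m + 1)) * E z c a m ζ := by
  have h0 : ∀ k, 0 ≤ g k := fun k => hg ▸ hm (Nat.zero_le k)
  have h1 : ∑ b ∈ range (m + 1), E z c a b ζ *
      (1 / 2 * g (ζ (z + b + 1)) - 1 / 4 * g (ζ (z + b))) =
      (∑ b ∈ range m, E z c a b ζ * (1 / 2 * g (ζ (z + b + 1))) +
        E z c a m ζ * (1 / 2 * g (ζ (z + m + 1)))) -
      (∑ b ∈ range m, E z c a (b + 1) ζ * (1 / 4 * g (ζ (z + b + 1))) +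
        E z c a 0 ζ * (1 / 4 * g (ζ z))) := by
    simp_rw [mul_sub]
    rw [sum_sub_distrib, sum_range_succ, sum_range_succ' (fun b => E z c a b ζ *
      (1 / 4 * g (ζ (z + b))))]
    congr 2
    · refine sum_congr rfl fun b _ => ?_
      congr 4
      push_cast
      ring
    · simp
  rw [h1]
  have h2 : 0 ≤ E z c a 0 ζ * (1 / 4 * g (ζ z)) :=
    mul_nonneg (E_pos _ _ _ _ _).le (mul_nonneg (by norm_num) (h0 _))
  have h3 : ∑ b ∈ range m, E z c a b ζ * (1 / 2 * g (ζ (z + b + 1))) -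
      ∑ b ∈ range m, E z c a (b + 1) ζ * (1 / 4 * g (ζ (z + b + 1))) ≤
      ∑ b ∈ range m, E z c a b ζ * (g (c + 1) - g (ζ (z + b + 1)) * 2 ^ ζ (z + b + 1) /
        2 ^ (c + 3)) := by
    rw [← sum_sub_distrib]
    refine sum_le_sum fun b _ => ?_
    rw [E_succ_right]
    have := mul_le_mul_of_nonneg_left (pair_le hg hm c (ζ (z + b + 1)))
      (E_pos z c a b ζ).le
    refine le_trans (le_of_eq ?_) this
    ring
  linarith

lemma E_le {z : ℤ} {c a b N m : ℕ} (hc : 1 ≤ c) (hab : m ≤ a + b) {ζ : ℤ →₀ ℕ}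
    (hN : ζ.degree ≤ N) : E z c a b ζ ≤ 2 ^ N / 2 ^ m := by
  unfold E
  apply div_le_div₀ (by positivity)
  · exact pow_le_pow_right₀ (by norm_num) ((S_le _ _ _).trans hN)
  · positivity
  · apply pow_le_pow_right₀ (by norm_num)
    calc m ≤ 1 * (a + b + 1) := by omega
      _ ≤ c * (a + b + 1) := Nat.mul_le_mul_right _ hc

lemma le_degree (ζ : ℤ →₀ ℕ) (x : ℤ) : ζ x ≤ ζ.degree := by
  have := S_le x x ζ
  simpa [S] using this

/-- The Lyapunov inequality. -/
theorem genF_V_le {g : ℕ → ℝ} (hg : g 0 = 0) (hm : Monotone g) (z : ℤ) {c m N : ℕ}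
    (hc : 1 ≤ c) (hm1 : 1 ≤ m) {ζ : ℤ →₀ ℕ} (hN : ζ.degree ≤ N) :
    genF g (V z c m) ζ + 1 / 2 ^ c * (g (ζ (z + 1)) * 2 ^ ζ (z + 1) / 2 ^ (c + 3)) ≤
      2 * g (c + 1) * V z c m ζ + (m + 1) * (g N * (2 ^ N / 2 ^ m)) := by
  have h0 : ∀ k, 0 ≤ g k := fun k => hg ▸ hm (Nat.zero_le k)
  have hgN : ∀ x, g (ζ x) ≤ g N := fun x => hm ((le_degree ζ x).trans hN)
  have h1 : genF g (V z c m) ζ =
      ∑ b ∈ range (m + 1), ∑ a ∈ range (m + 1), E z c a b ζ *
        (1 / 2 * g (ζ (z - a - 1)) - 1 / 4 * g (ζ (z - a))) +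
      ∑ a ∈ range (m + 1), ∑ b ∈ range (m + 1), E z c a b ζ *
        (1 / 2 * g (ζ (z + b + 1)) - 1 / 4 * g (ζ (z + b))) := by
    rw [sum_comm, ← sum_add_distrib]
    have h2 : genF g (V z c m) ζ =
        ∑ a ∈ range (m + 1), ∑ b ∈ range (m + 1), genF g (E z c a b) ζ := by
      have e1 : V z c m = fun ζ => ∑ a ∈ range (m + 1), ∑ b ∈ range (m + 1), E z c a b ζ := rfl
      rw [e1, genF_sum]
      exact sum_congr rfl fun a _ => genF_sum g _ _ ζ
    rw [h2]
    refine sum_congr rfl fun a _ => ?_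
    rw [← sum_add_distrib]
    refine sum_congr rfl fun b _ => ?_
    rw [genF_E hg]
    ring
  have hV : V z c m ζ = ∑ b ∈ range (m + 1), ∑ a ∈ range (m + 1), E z c a b ζ := sum_comm
  have hend : ∀ k : ℕ, ∀ w, m ≤ k → 1 / 2 * g (ζ w) * (2 ^ N / 2 ^ m : ℝ) ≤
      1 / 2 * (g N * (2 ^ N / 2 ^ m)) := by
    intro k w _
    have := hgN w
    have h3 : (0 : ℝ) ≤ 2 ^ N / 2 ^ m := by positivity
    nlinarith
  have hleft : ∑ b ∈ range (m + 1), ∑ a ∈ range (m + 1), E z c a b ζ *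
        (1 / 2 * g (ζ (z - a - 1)) - 1 / 4 * g (ζ (z - a))) ≤
      g (c + 1) * V z c m ζ + (m + 1) * (1 / 2 * (g N * (2 ^ N / 2 ^ m))) := by
    calc ∑ b ∈ range (m + 1), ∑ a ∈ range (m + 1), E z c a b ζ *
        (1 / 2 * g (ζ (z - a - 1)) - 1 / 4 * g (ζ (z - a)))
        ≤ ∑ b ∈ range (m + 1), (g (c + 1) * ∑ a ∈ range (m + 1), E z c a b ζ +
            1 / 2 * (g N * (2 ^ N / 2 ^ m))) := by
          refine sum_le_sum fun b _ => (left_le hg hm z c b m ζ).trans ?_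
          apply add_le_add
          · rw [mul_sum]
            calc ∑ a ∈ range m, E z c a b ζ * (g (c + 1) - g (ζ (z - a - 1)) *
                2 ^ ζ (z - a - 1) / 2 ^ (c + 3))
                ≤ ∑ a ∈ range m, g (c + 1) * E z c a b ζ := by
                  refine sum_le_sum fun a _ => ?_
                  have h4 : 0 ≤ g (ζ (z - a - 1)) * 2 ^ ζ (z - a - 1) / 2 ^ (c + 3) := by
                    have := h0 (ζ (z - a - 1))
                    positivity
                  have h5 := E_pos z c a b ζ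
                  nlinarith
              _ ≤ ∑ a ∈ range (m + 1), g (c + 1) * E z c a b ζ := by
                  apply sum_le_sum_of_subset_of_nonneg (range_mono (by omega))
                  intro a _ _
                  exact mul_nonneg (h0 _) (E_pos _ _ _ _ _).le
          · refine (mul_le_mul_of_nonneg_left (E_le hc (m := m) (by omega) hN) ?_).trans
              (hend m _ le_rfl)
            have := h0 (ζ (z - m - 1))
            positivity
      _ = g (c + 1) * V z c m ζ + (m + 1) * (1 / 2 * (g N * (2 ^ N / 2 ^ m))) := by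
          rw [sum_add_distrib, ← mul_sum, ← hV, sum_const, card_range, nsmul_eq_mul]
          push_cast
          ring
  have hright : ∑ a ∈ range (m + 1), ∑ b ∈ range (m + 1), E z c a b ζ *
        (1 / 2 * g (ζ (z + b + 1)) - 1 / 4 * g (ζ (z + b))) ≤
      g (c + 1) * V z c m ζ + (m + 1) * (1 / 2 * (g N * (2 ^ N / 2 ^ m))) -
        1 / 2 ^ c * (g (ζ (z + 1)) * 2 ^ ζ (z + 1) / 2 ^ (c + 3)) := by
    calc ∑ a ∈ range (m + 1), ∑ b ∈ range (m + 1), E z c a b ζ *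
        (1 / 2 * g (ζ (z + b + 1)) - 1 / 4 * g (ζ (z + b)))
        ≤ ∑ a ∈ range (m + 1), (g (c + 1) * ∑ b ∈ range (m + 1), E z c a b ζ +
            1 / 2 * (g N * (2 ^ N / 2 ^ m)) -
            if a = 0 then 1 / 2 ^ c * (g (ζ (z + 1)) * 2 ^ ζ (z + 1) / 2 ^ (c + 3)) else 0) := by
          refine sum_le_sum fun a _ => (right_le hg hm z c a m ζ).trans ?_
          have h6 : 1 / 2 * g (ζ (z + m + 1)) * E z c a m ζ ≤
              1 / 2 * (g N * (2 ^ N / 2 ^ m)) := by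
            refine (mul_le_mul_of_nonneg_left (E_le hc (m := m) (by omega) hN) ?_).trans
              (hend m _ le_rfl)
            have := h0 (ζ (z + m + 1))
            positivity
          have h7 : ∑ b ∈ range m, E z c a b ζ * (g (c + 1) - g (ζ (z + b + 1)) *
              2 ^ ζ (z + b + 1) / 2 ^ (c + 3)) ≤ g (c + 1) * ∑ b ∈ range (m + 1), E z c a b ζ -
              if a = 0 then 1 / 2 ^ c * (g (ζ (z + 1)) * 2 ^ ζ (z + 1) / 2 ^ (c + 3)) else 0 := by
            have h8 : ∑ b ∈ range m, E z c a b ζ * (g (c + 1) - g (ζ (z + b + 1)) *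
                2 ^ ζ (z + b + 1) / 2 ^ (c + 3)) ≤ ∑ b ∈ range m, (g (c + 1) * E z c a b ζ -
                if b = 0 then (if a = 0 then 1 / 2 ^ c * (g (ζ (z + 1)) * 2 ^ ζ (z + 1) /
                  2 ^ (c + 3)) else 0) else 0) := by
              refine sum_le_sum fun b _ => ?_
              have h4 : 0 ≤ g (ζ (z + b + 1)) * 2 ^ ζ (z + b + 1) / 2 ^ (c + 3) := by
                have := h0 (ζ (z + b + 1))
                positivity
              have h5 := E_pos z c a b ζ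
              split_ifs with hb ha
              · subst hb
                subst ha
                have h9 : 1 / 2 ^ c ≤ E z c 0 0 ζ := by
                  unfold E
                  rw [show c * (0 + 0 + 1) = c by ring]
                  apply div_le_div_of_nonneg_right _ (by positivity)
                  exact one_le_pow₀ (by norm_num)
                have h10 : z + ((0 : ℕ) : ℤ) + 1 = z + 1 := by simp
                rw [h10] at h4 ⊢
                nlinarith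
              · nlinarith
              · nlinarith
            refine h8.trans ?_
            rw [sum_sub_distrib, sum_ite_eq', if_pos (mem_range.mpr hm1), ← mul_sum]
            apply sub_le_sub_right
            apply mul_le_mul_of_nonneg_left _ (h0 _)
            apply sum_le_sum_of_subset_of_nonneg (range_mono (by omega))
            intro b _ _
            exact (E_pos _ _ _ _ _).le
          linarith
      _ = g (c + 1) * V z c m ζ + (m + 1) * (1 / 2 * (g N * (2 ^ N / 2 ^ m))) -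
        1 / 2 ^ c * (g (ζ (z + 1)) * 2 ^ ζ (z + 1) / 2 ^ (c + 3)) := by
          rw [sum_sub_distrib, sum_add_distrib, ← mul_sum, sum_const, card_range, nsmul_eq_mul,
            sum_ite_eq', if_pos (mem_range.mpr (Nat.succ_pos m)), V]
          push_cast
          ring
  rw [h1]
  linarith

lemma V_nonneg (z : ℤ) (c m : ℕ) (ζ : ℤ →₀ ℕ) : 0 ≤ V z c m ζ :=
  sum_nonneg fun _ _ => sum_nonneg fun _ _ => (E_pos _ _ _ _ _).le

lemma V_le {z : ℤ} {c m N : ℕ} (hc : 1 ≤ c) {ζ : ℤ →₀ ℕ} (hN : ζ.degree ≤ N) :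
    V z c m ζ ≤ (m + 1) * ((m + 1) * 2 ^ N) := by
  calc V z c m ζ ≤ ∑ _a ∈ range (m + 1), ∑ _b ∈ range (m + 1), (2 : ℝ) ^ N := by
        refine sum_le_sum fun a _ => sum_le_sum fun b _ => ?_
        have := E_le (z := z) hc (Nat.zero_le (a + b)) hN
        simpa using this
    _ = _ := by
        rw [sum_const, sum_const, card_range, nsmul_eq_mul, nsmul_eq_mul]
        push_cast
        ring

end Pool.Agent.Lib.MP_68fe73_pr
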