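import Pool.Agent.Lib.MP_68fe73_pr.Generator

/-!
The integrated forward equation for the symmetric nearest neighbour zero-range process.
-/

namespace Pool.Agent.Lib.MP_68fe73_pr

open MeasureTheory ProbabilityTheory Filter Topology

variable {Ω : Type*} [mΩ : MeasurableSpace Ω] {P : Measure Ω} [IsProbabilityMeasure P]
  {F : ℝ → MeasurableSpace Ω} {Γ : Ω → Set Atom} {g : ℕ → ℝ}

theorem integratedForwardEquation (hg : g 0 = 0) (hm : Monotone g)
    (hΓ : IsMarkedPoisson P F Γ) {η₀ : ℤ → ℕ} (hη₀ : η₀ ∈ Y) {η : ℝ → Ω → ℤ → ℕ}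
    (hη : IsZeroRangeProcess g P F Γ η₀ η) : IntegratedForwardEquation g P η₀ η := by
  rintro f ⟨⟨Λ, hΛ⟩, C, hC⟩ t ht
  obtain ⟨ηs, hηs, hlim⟩ := hη
  have h0 : ∀ j, 0 ≤ g j := fun j => hg ▸ hm (Nat.zero_le j)
  have hC0 : 0 ≤ C := (abs_nonneg _).trans (hC 0)
  obtain ⟨K, hK⟩ := exists_bound_of_mem_Y hη₀
  set c := 2 * K + 1 with hc
  -- the a priori bound
  set V₀ : ℤ → ℝ := fun z => 4 * 2 ^ (K * (2 * z.natAbs + 1)) with hV₀
  set B₀ : ℤ → ℝ := fun x => 2 ^ (2 * c + 3) *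
    (V₀ (x - 1) + t * (2 * g (c + 1) * (V₀ (x - 1) * Real.exp (2 * g (c + 1) * t)))) with hB₀
  have hb : ∀ n x, ContinuousOn (fun u => ∫ ω, wt g (ηs n u ω x) ∂P) (Set.Ici 0) ∧
      ∫ u in (0 : ℝ)..t, ∫ ω, wt g (ηs n u ω x) ∂P ≤ B₀ x := by
    intro n x
    have h1 := (hηs n).bound hg hm hΓ (z := x - 1) (c := c) (by omega) (V₀ := V₀ (x - 1))
      (fun m => V_cut_le hK (x - 1) n m) ht
    rw [sub_add_cancel] at h1
    exact h1
  have hX : ∀ n u, 0 ≤ u → ∀ H : (ℤ → ℕ) → ℝ, Measurable fun ω => H ⇑(ηs n u ω) :=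
    fun n u hu H => (hηs n).measurable_comp hΓ hu (fun ζ => H ⇑ζ)
  have hwi : ∀ n u x, 0 ≤ u → Integrable (fun ω => wt g (ηs n u ω x)) P := by
    intro n u x hu
    refine Integrable.of_bound (hX n u hu (fun ξ => wt g (ξ x))).aestronglyMeasurable
      (g (cut η₀ n).degree * 2 ^ (cut η₀ n).degree) ?_
    filter_upwards [(hηs n).degree_eq hg hm hΓ hu] with ω hω
    rw [Real.norm_eq_abs, abs_of_nonneg (wt_nonneg h0 _)]
    have h1 : ηs n u ω x ≤ (cut η₀ n).degree := (le_degree _ _).trans hω.le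
    exact mul_le_mul (hm h1) (pow_le_pow_right₀ (by norm_num) h1) (by positivity) (h0 _)
  have hWi : ∀ n u, 0 ≤ u → Integrable (fun ω => Wt g C Λ ⇑(ηs n u ω)) P := by
    intro n u hu
    unfold Wt
    exact integrable_finsetSum _ fun x _ => (hwi n u x hu).const_mul _
  have hWe : ∀ n u, 0 ≤ u → ∫ ω, Wt g C Λ ⇑(ηs n u ω) ∂P =
      ∑ x ∈ sites Λ, 2 * C * ∫ ω, wt g (ηs n u ω x) ∂P := by
    intro n u hu
    unfold Wt
    rw [integral_finsetSum _ fun x _ => (hwi n u x hu).const_mul _]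
    exact Finset.sum_congr rfl fun x _ => integral_const_mul _ _
  have key := limit_eq (P := P) (X := fun n u ω => ⇑(ηs n u ω)) (Y := η) (f := f) (G := gen g f)
    (W := Wt g C Λ) (GM := fun M ξ => ∑ x ∈ sites Λ, term (g (min (ξ x) M)) f ξ x)
    hX hlim ⟨Λ, hΛ⟩ ?_ ?_ ?_ hC ?_ ?_ ?_ ht ?_ ?_ ?_ hWi (B := ∑ x ∈ sites Λ, 2 * C * B₀ x) ?_
    (a := fun n => f ⇑(cut η₀ n)) (a' := f η₀) ?_ ?_
  · exact key
  · obtain ⟨Λ', h⟩ := loc_sum g hΛ
    exact ⟨Λ', fun ξ ξ' h' => by rw [gen_eq_sum g hΛ, gen_eq_sum g hΛ]; exact h ξ ξ' h'⟩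
  · refine ⟨sites Λ, fun ξ ξ' h => ?_⟩
    unfold Wt
    exact Finset.sum_congr rfl fun x hx => by rw [h x hx]
  · intro M
    exact loc_sum (fun j => g (min j M)) hΛ
  · intro ξ
    rw [gen_eq_sum g hΛ]
    exact abs_gen_le h0 hC ξ
  · intro M ξ
    rw [gen_eq_sum g hΛ]
    exact abs_gen_sub_le h0 hm hC M ξ
  · intro M
    exact ⟨(sites Λ).card * (2 * C * g M), fun ξ => abs_genM_le h0 hm hC M ξ⟩
  · intro n
    have h1 := ((hηs n).forward hg hm hΓ (Φ := fun ζ => f ⇑ζ) (C := C) fun ζ _ => hC _).1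
    simp only [← gen_coe hg] at h1
    exact h1
  · intro n
    have h1 : ContinuousOn (fun u => ∑ x ∈ sites Λ, 2 * C * ∫ ω, wt g (ηs n u ω x) ∂P)
        (Set.Ici 0) :=
      continuousOn_finsetSum _ fun x _ => (hb n x).1.const_mul _
    exact h1.congr fun u hu => hWe n u hu
  · intro M n
    exact ((hηs n).forward hg hm hΓ
      (Φ := fun ζ => ∑ x ∈ sites Λ, term (g (min (ζ x) M)) f ⇑ζ x)
      (C := (sites Λ).card * (2 * C * g M)) fun ζ _ => abs_genM_le h0 hm hC M ⇑ζ).2.1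
  · intro n
    have h1 : ∫ u in (0 : ℝ)..t, ∫ ω, Wt g C Λ ⇑(ηs n u ω) ∂P =
        ∫ u in (0 : ℝ)..t, ∑ x ∈ sites Λ, 2 * C * ∫ ω, wt g (ηs n u ω x) ∂P := by
      refine intervalIntegral.integral_congr fun u hu => ?_
      rw [Set.uIcc_of_le ht] at hu
      exact hWe n u hu.1
    rw [h1, intervalIntegral.integral_finsetSum]
    · refine Finset.sum_le_sum fun x _ => ?_
      rw [intervalIntegral.integral_const_mul]
      have := (hb n x).2
      gcongr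
    · intro x _
      exact (((hb n x).1.mono (by
        rw [Set.uIcc_of_le ht]
        exact Set.Icc_subset_Ici_self)).intervalIntegrable).const_mul _
  · exact Loc.eventually (H := f) ⟨Λ, hΛ⟩ (X := fun n => ⇑(cut η₀ n)) (eventually_cut η₀)
  · intro n
    have h1 := ((hηs n).forward hg hm hΓ (Φ := fun ζ => f ⇑ζ) (C := C) fun ζ _ => hC _).2.2 t ht
    simp only [← gen_coe hg] at h1
    exact h1

end Pool.Agent.Lib.MP_68fe73_pr
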