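import Pool.Agent.Lib.MP_68fe73_pr.Lyapunov

/-!
Pathwise properties of the finite processes on a short time interval.
-/

namespace Pool.Agent.Lib.MP_68fe73_pr

open Filter Topology

variable {Ω : Type*} {g : ℕ → ℝ} {Γ : Ω → Set Atom} {ω : Ω}

/-- The rule for one path. -/
structure PathRule (g : ℕ → ℝ) (Γ : Ω → Set Atom) (ω : Ω) (η : ℝ → ℤ →₀ ℕ) : Prop where
  right_cont : ∀ t, 0 ≤ t → ∀ᶠ s in 𝓝[>] t, η s = η t
  jump : ∀ t, 0 < t → ∃ ζ, (∀ᶠ s in 𝓝[<] t, η s = ζ) ∧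
    ((∀ x m y, ¬ Used g Γ ω ζ t x m y) → η t = ζ) ∧
    (∀ x m y, Used g Γ ω ζ t x m y →
      (∀ x' m' y', Used g Γ ω ζ t x' m' y' → x' = x ∧ m' = m ∧ y' = y) →
      η t = move ζ x (x + markVal m))

variable {η : ℝ → ℤ →₀ ℕ}

lemma PathRule.const (h : PathRule g Γ ω η) {a b : ℝ} (ha : 0 ≤ a) {ζ : ℤ →₀ ℕ}
    (hζ : η a = ζ) (hno : ∀ τ ∈ Set.Ioc a b, ∀ x m y, ¬ Used g Γ ω ζ τ x m y) :
    ∀ τ ∈ Set.Icc a b, η τ = ζ := by
  have key : Set.Icc a b ⊆ {τ | η τ = ζ} := by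
    apply IsClosed.Icc_subset_of_forall_mem_nhdsWithin
    · apply isClosed_of_closure_subset
      intro τ hτ
      have hτI : τ ∈ Set.Icc a b :=
        closure_minimal Set.inter_subset_right isClosed_Icc hτ
      refine ⟨?_, hτI⟩
      rcases hτI.1.eq_or_lt with h1 | h1
      · rw [← h1]
        exact hζ
      rw [mem_closure_iff_frequently, ← nhdsLT_sup_nhdsGE, frequently_sup] at hτ
      rcases hτ with hτ | hτ
      · obtain ⟨ζ', h2, h3, -⟩ := h.jump τ (ha.trans_lt h1)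
        obtain ⟨s, hs1, hs2⟩ := (hτ.and_eventually h2).exists
        have h4 : ζ' = ζ := by
          rw [← hs2]
          exact hs1.1
        rw [h4] at h3
        exact h3 (hno τ ⟨h1, hτI.2⟩)
      · have h2 : ∀ᶠ s in 𝓝[≥] τ, η s = η τ := by
          rw [← Set.Ioi_insert, nhdsWithin_insert, eventually_sup]
          exact ⟨by simp, h.right_cont τ (ha.trans h1.le)⟩
        obtain ⟨s, hs1, hs2⟩ := (hτ.and_eventually h2).exists
        have h5 : η s = ζ := hs1.1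
        change η τ = ζ
        rw [← hs2, h5]
    · exact hζ
    · rintro τ ⟨h1, h2⟩
      have h3 : η τ = ζ := h1
      filter_upwards [h.right_cont τ (ha.trans h2.1)] with s hs
      exact hs.trans h3
  exact key

lemma PathRule.single (h : PathRule g Γ ω η) {a b τ : ℝ} (ha : 0 ≤ a) {ζ : ℤ →₀ ℕ}
    (hζ : η a = ζ) (hτ : τ ∈ Set.Ioc a b) {x : ℤ} {m : Bool} {y : ℝ}
    (hu : Used g Γ ω ζ τ x m y)
    (huniq : ∀ x' m' y', Used g Γ ω ζ τ x' m' y' → x' = x ∧ m' = m ∧ y' = y)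
    (hno : ∀ s ∈ Set.Ioc a b, s ≠ τ → ∀ x' m' y', ¬ Used g Γ ω ζ s x' m' y')
    (hno' : ∀ s ∈ Set.Ioc a b, s ≠ τ → ∀ x' m' y',
      ¬ Used g Γ ω (move ζ x (x + markVal m)) s x' m' y') :
    η b = move ζ x (x + markVal m) := by
  have h1 : ∀ s, a ≤ s → s < τ → η s = ζ := by
    intro s hs1 hs2
    refine h.const (b := s) ha hζ (fun r hr => ?_) s ⟨hs1, le_rfl⟩
    exact hno r ⟨hr.1, (hr.2.trans hs2.le).trans hτ.2⟩ (hr.2.trans_lt hs2).ne
  obtain ⟨ζ', h2, -, h3⟩ := h.jump τ (ha.trans_lt hτ.1)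
  have h4 : ∀ᶠ s in 𝓝[<] τ, η s = ζ := by
    filter_upwards [Ioo_mem_nhdsLT hτ.1] with s hs
    exact h1 s hs.1.le hs.2
  obtain ⟨s, hs1, hs2⟩ := (h2.and h4).exists
  obtain rfl : ζ' = ζ := by rw [← hs1, hs2]
  have h5 := h3 x m y hu huniq
  refine h.const (ha.trans hτ.1.le) h5 (fun r hr => ?_) b ⟨hτ.2, le_rfl⟩
  exact hno' r ⟨hτ.1.trans hr.1, hr.2⟩ hr.1.ne'

lemma degree_move {ζ : ℤ →₀ ℕ} {x : ℤ} (hx : 1 ≤ ζ x) (y : ℤ) :
    (move ζ x y).degree = ζ.degree := by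
  conv_rhs => rw [← sub_add_single hx]
  rw [move, map_add, map_add, Finsupp.degree_single, Finsupp.degree_single]

lemma move_pos {ζ : ℤ →₀ ℕ} {x y w : ℤ} (h : 1 ≤ move ζ x y w) : 1 ≤ ζ w ∨ w = y := by
  by_cases hwy : w = y
  · exact Or.inr hwy
  · left
    rw [move, Finsupp.add_apply, Finsupp.tsub_apply, Finsupp.single_apply, Finsupp.single_apply,
      if_neg (Ne.symm hwy)] at h
    omega

/-- The sites which are occupied or have an occupied neighbour. -/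
noncomputable def nbhd (ζ : ℤ →₀ ℕ) : Finset ℤ :=
  ζ.support ∪ (ζ.support.image (· + 1) ∪ ζ.support.image (· - 1))

lemma card_support_le (ζ : ℤ →₀ ℕ) : ζ.support.card ≤ ζ.degree := by
  have : ζ.degree = ∑ x ∈ ζ.support, ζ x := rfl
  rw [this, Finset.card_eq_sum_ones]
  exact Finset.sum_le_sum fun x hx =>
    Nat.one_le_iff_ne_zero.mpr (Finsupp.mem_support_iff.mp hx)

lemma card_nbhd_le (ζ : ℤ →₀ ℕ) : (nbhd ζ).card ≤ 3 * ζ.degree := by
  have h := card_support_le ζ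
  unfold nbhd
  calc _ ≤ ζ.support.card + ((ζ.support.image (· + 1)).card + (ζ.support.image (· - 1)).card) :=
        (Finset.card_union_le _ _).trans (Nat.add_le_add_left (Finset.card_union_le _ _) _)
    _ ≤ ζ.support.card + (ζ.support.card + ζ.support.card) :=
        Nat.add_le_add_left (Nat.add_le_add Finset.card_image_le Finset.card_image_le) _
    _ ≤ 3 * ζ.degree := by omega

lemma mem_nbhd {ζ : ℤ →₀ ℕ} {x : ℤ} (hx : 1 ≤ ζ x) : x ∈ nbhd ζ := by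
  apply Finset.mem_union_left
  rw [Finsupp.mem_support_iff]
  omega

lemma mem_nbhd' {ζ : ℤ →₀ ℕ} {x : ℤ} (hx : 1 ≤ ζ x) (m : Bool) : x + markVal m ∈ nbhd ζ := by
  apply Finset.mem_union_right
  have hx' : x ∈ ζ.support := by
    rw [Finsupp.mem_support_iff]
    omega
  cases m
  · exact Finset.mem_union_right _ (Finset.mem_image_of_mem (· - 1) hx')
  · exact Finset.mem_union_left _ (Finset.mem_image_of_mem (· + 1) hx')

/-- The region containing all atoms which can be used. -/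
def region (T : Finset ℤ) (G u h : ℝ) : Set Atom :=
  (T : Set ℤ) ×ˢ (Set.univ ×ˢ (Set.Iic G ×ˢ Set.Ioc u (u + h)))

/-- The atoms with mark `m` which move a particle from `x` when its rate is `r`. -/
def box (x : ℤ) (m : Bool) (r u h : ℝ) : Set Atom :=
  {x} ×ˢ ({m} ×ˢ (Set.Iic r ×ˢ Set.Ioc u (u + h)))

lemma Used.mem_region (hm : Monotone g) {ζ ξ : ℤ →₀ ℕ} {N : ℕ} (hN : ξ.degree ≤ N)
    (hξ : ∀ x, 1 ≤ ξ x → x ∈ nbhd ζ) {x : ℤ} {m : Bool} {y u h τ : ℝ}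
    (hτ : τ ∈ Set.Ioc u (u + h)) (hu : Used g Γ ω ξ τ x m y) :
    (x, m, y, τ) ∈ Γ ω ∩ region (nbhd ζ) (g N) u h := by
  refine ⟨hu.1, hξ x hu.2.1, Set.mem_univ _, ?_, hτ⟩
  exact hu.2.2.trans (hm ((le_degree ξ x).trans hN))

open Classical in
/-- The outcome when there is at most one atom in the region. -/
lemma PathRule.outcome (h : PathRule g Γ ω η) (hm : Monotone g) {u k : ℝ} (hu : 0 ≤ u)
    (hk : 0 ≤ k) {ζ : ℤ →₀ ℕ} {N : ℕ} (hN : ζ.degree ≤ N) (hζ : η u = ζ)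
    (hcnt : cnt Γ (region (nbhd ζ) (g N) u k) ω ≤ 1) (F : (ℤ →₀ ℕ) → ℝ) :
    F (η (u + k)) = F ζ + ∑ x ∈ ζ.support, ∑ m : Bool, (F (move ζ x (x + markVal m)) - F ζ) *
      (if cnt Γ (box x m (g (ζ x)) u k) ω ≠ 0 then 1 else 0) := by
  have hsub : ∀ x ∈ ζ.support, ∀ m, box x m (g (ζ x)) u k ⊆ region (nbhd ζ) (g N) u k := by
    intro x hx m p hp
    obtain ⟨h1, h2, h3, h4⟩ := hp
    have hx1 : 1 ≤ ζ x := Nat.one_le_iff_ne_zero.mpr (Finsupp.mem_support_iff.mp hx)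
    rw [Set.mem_singleton_iff] at h1
    refine ⟨?_, Set.mem_univ _, ?_, h4⟩
    · rw [h1]
      exact mem_nbhd hx1
    · exact (Set.mem_Iic.mp h3).trans (hm ((le_degree ζ x).trans hN))
  have hbox : ∀ x m, cnt Γ (box x m (g (ζ x)) u k) ω ≠ 0 ↔
      ∃ y τ, (x, m, y, τ) ∈ Γ ω ∧ y ≤ g (ζ x) ∧ τ ∈ Set.Ioc u (u + k) := by
    intro x m
    rw [cnt, Ne, Set.encard_eq_zero, ← Ne, ← Set.nonempty_iff_ne_empty]
    constructor
    · rintro ⟨⟨x', m', y, τ⟩, h1, h2, h3, h4, h5⟩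
      rw [Set.mem_singleton_iff] at h2 h3
      simp only at h2 h3
      subst h2
      subst h3
      exact ⟨y, τ, h1, h4, h5⟩
    · rintro ⟨y, τ, h1, h2, h3⟩
      exact ⟨(x, m, y, τ), h1, rfl, rfl, h2, h3⟩
  have hζn : ∀ x, 1 ≤ ζ x → x ∈ nbhd ζ := fun x hx => mem_nbhd hx
  by_cases hex : ∃ x ∈ ζ.support, ∃ m, cnt Γ (box x m (g (ζ x)) u k) ω ≠ 0
  · obtain ⟨x, hx, m, hc⟩ := hex
    have hx1 : 1 ≤ ζ x := Nat.one_le_iff_ne_zero.mpr (Finsupp.mem_support_iff.mp hx)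
    obtain ⟨y, τ, h1, h2, h3⟩ := (hbox x m).mp hc
    have hused : Used g Γ ω ζ τ x m y := ⟨h1, hx1, h2⟩
    have hall : ∀ p ∈ Γ ω ∩ region (nbhd ζ) (g N) u k, p = (x, m, y, τ) := by
      intro p hp
      exact (Set.encard_le_one_iff.mp hcnt) p _ hp (hused.mem_region hm hN hζn h3)
    have huniq : ∀ s ∈ Set.Ioc u (u + k), ∀ ξ : ℤ →₀ ℕ, ξ.degree ≤ N →
        (∀ w, 1 ≤ ξ w → w ∈ nbhd ζ) → ∀ x' m' y', Used g Γ ω ξ s x' m' y' →
        x' = x ∧ m' = m ∧ y' = y ∧ s = τ := by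
      intro s hs ξ hξ1 hξ2 x' m' y' hu'
      have := hall _ (hu'.mem_region hm hξ1 hξ2 hs)
      simpa only [Prod.mk.injEq] using this
    have hmove : ∀ w, 1 ≤ move ζ x (x + markVal m) w → w ∈ nbhd ζ := by
      intro w hw
      rcases move_pos hw with h4 | h4
      · exact mem_nbhd h4
      · rw [h4]
        exact mem_nbhd' hx1 m
    have hres : η (u + k) = move ζ x (x + markVal m) := by
      refine h.single hu hζ h3 hused ?_ ?_ ?_
      · intro x' m' y' hu'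
        obtain ⟨e1, e2, e3, -⟩ := huniq τ h3 ζ hN hζn x' m' y' hu'
        exact ⟨e1, e2, e3⟩
      · intro s hs hne x' m' y' hu'
        exact hne (huniq s hs ζ hN hζn x' m' y' hu').2.2.2
      · intro s hs hne x' m' y' hu'
        exact hne (huniq s hs _ (by rw [degree_move hx1]; exact hN) hmove x' m' y' hu').2.2.2
    rw [hres, Finset.sum_eq_single x, Finset.sum_eq_single m, if_pos hc]
    · ring
    · intro m' _ hm'
      rw [if_neg, mul_zero]
      intro hc'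
      obtain ⟨y', τ', h1', h2', h3'⟩ := (hbox x m').mp hc'
      exact hm' (huniq τ' h3' ζ hN hζn x m' y' ⟨h1', hx1, h2'⟩).2.1
    · intro hm'
      exact absurd (Finset.mem_univ m) hm'
    · intro x' hx' hne
      apply Finset.sum_eq_zero
      intro m' _
      rw [if_neg, mul_zero]
      intro hc'
      obtain ⟨y', τ', h1', h2', h3'⟩ := (hbox x' m').mp hc'
      have hx1' : 1 ≤ ζ x' := Nat.one_le_iff_ne_zero.mpr (Finsupp.mem_support_iff.mp hx')
      exact hne (huniq τ' h3' ζ hN hζn x' m' y' ⟨h1', hx1', h2'⟩).1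
    · intro hx'
      exact absurd hx hx'
  · push Not at hex
    have hno : ∀ τ ∈ Set.Ioc u (u + k), ∀ x m y, ¬ Used g Γ ω ζ τ x m y := by
      intro τ hτ x m y hu'
      have hx : x ∈ ζ.support := by
        rw [Finsupp.mem_support_iff]
        have := hu'.2.1
        omega
      exact (hbox x m).mpr ⟨y, τ, hu'.1, hu'.2.2, hτ⟩ (hex x hx m)
    rw [h.const hu hζ hno (u + k) ⟨by linarith, le_rfl⟩, Finset.sum_eq_zero]
    · ring
    · intro x hx
      apply Finset.sum_eq_zero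
      intro m _
      rw [if_neg (by simpa using hex x hx m), mul_zero]

end Pool.Agent.Lib.MP_68fe73_pr
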